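import Mathlib

/-!
# Non-autonomous maximal regularity for divergence form operators: definitions for the statement
-/

open MeasureTheory Set

namespace Pool.Agent.H681R3.MR.Stmt

/-- The space `ℝⁿ` (Mathlib's `EuclideanSpace ℝ (Fin n)`, with its norm and Lebesgue measure). -/
def E (n : ℕ) : Type := EuclideanSpace ℝ (Fin n)

noncomputable instance instNormedE (n : ℕ) : NormedAddCommGroup (E n) :=
  (inferInstance : NormedAddCommGroup (EuclideanSpace ℝ (Fin n)))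

noncomputable instance instSpaceE (n : ℕ) : NormedSpace ℝ (E n) :=
  (inferInstance : NormedSpace ℝ (EuclideanSpace ℝ (Fin n)))

noncomputable instance instMeasureE (n : ℕ) : MeasureSpace (E n) :=
  (inferInstance : MeasureSpace (EuclideanSpace ℝ (Fin n)))

/-- The space `ℂⁿ` (Mathlib's `EuclideanSpace ℂ (Fin n)`). -/
def Cn (n : ℕ) : Type := EuclideanSpace ℂ (Fin n)

noncomputable instance instNormedCn (n : ℕ) : NormedAddCommGroup (Cn n) :=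
  (inferInstance : NormedAddCommGroup (EuclideanSpace ℂ (Fin n)))

noncomputable instance instSpaceCn (n : ℕ) : NormedSpace ℂ (Cn n) :=
  (inferInstance : NormedSpace ℂ (EuclideanSpace ℂ (Fin n)))

/-- The `i`-th coordinate of a vector in `ℂⁿ`. -/
def co {n : ℕ} (ξ : Cn n) (i : Fin n) : ℂ := (WithLp.ofLp ξ : Fin n → ℂ) i

/-- The vector in `ℂⁿ` with given coordinates. -/
def vec {n : ℕ} (c : Fin n → ℂ) : Cn n := WithLp.toLp 2 c

/-- The space `L²(Ω; F)` (Mathlib's `Lp` with `p = 2` for Lebesgue measure on `Ω`, with its norm). -/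
def L2 {n : ℕ} (Ω : Set (E n)) (F : Type) [NormedAddCommGroup F] : Type :=
  Lp F 2 (volume.restrict Ω)

section

variable {n : ℕ} (Ω : Set (E n)) (F : Type) [NormedAddCommGroup F]

noncomputable instance instNormedL2 : NormedAddCommGroup (L2 Ω F) :=
  (inferInstance : NormedAddCommGroup (Lp F 2 (volume.restrict Ω)))

noncomputable instance instSpaceL2 [NormedSpace ℂ F] : NormedSpace ℂ (L2 Ω F) :=
  (inferInstance : NormedSpace ℂ (Lp F 2 (volume.restrict Ω)))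

end

/-- A representative of an element of `L²(Ω; F)`. -/
noncomputable def rep {n : ℕ} {Ω : Set (E n)} {F : Type} [NormedAddCommGroup F] (u : L2 Ω F) :
    E n → F :=
  (Subtype.val u : E n →ₘ[volume.restrict Ω] F)

/-- The inner product `(u | v) = ∫_Ω u · conj v dx` of `H = L²(Ω)`. -/
noncomputable def ip {n : ℕ} {Ω : Set (E n)} (u v : L2 Ω ℂ) : ℂ :=
  ∫ x in Ω, rep u x * (starRingEnd ℂ) (rep v x)

/-- The Hilbert space `L²(Ω) × L²(Ω; ℂⁿ)`, with the norm `(‖u‖² + ‖g‖²)^(1/2)`. The Sobolev space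
`H¹(Ω)` is the (closed) subspace of the pairs `(u, ∇u)`, with the induced norm. -/
def Pairs {n : ℕ} (Ω : Set (E n)) : Type := WithLp 2 (L2 Ω ℂ × L2 Ω (Cn n))

noncomputable instance instNormedPairs {n : ℕ} (Ω : Set (E n)) : NormedAddCommGroup (Pairs Ω) :=
  (inferInstance : NormedAddCommGroup (WithLp 2 (L2 Ω ℂ × L2 Ω (Cn n))))

noncomputable instance instSpacePairs {n : ℕ} (Ω : Set (E n)) : NormedSpace ℂ (Pairs Ω) :=
  (inferInstance : NormedSpace ℂ (WithLp 2 (L2 Ω ℂ × L2 Ω (Cn n))))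

/-- The first component (the function) of a pair. -/
def pfn {n : ℕ} {Ω : Set (E n)} (p : Pairs Ω) : L2 Ω ℂ :=
  WithLp.fst (p : WithLp 2 (L2 Ω ℂ × L2 Ω (Cn n)))

/-- The second component (the gradient) of a pair. -/
def pgr {n : ℕ} {Ω : Set (E n)} (p : Pairs Ω) : L2 Ω (Cn n) :=
  WithLp.snd (p : WithLp 2 (L2 Ω ℂ × L2 Ω (Cn n)))

/-- The gradient of a (smooth) function `φ : ℝⁿ → ℂ`. -/
noncomputable def grad {n : ℕ} (φ : E n → ℂ) (x : E n) : Cn n :=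
  vec fun i => fderiv ℝ φ x (EuclideanSpace.single i 1)

/-- The pairs `(φ|Ω, ∇φ|Ω)` with `φ ∈ C_c^∞(ℝⁿ \ D)`. -/
def testPairs {n : ℕ} (Ω D : Set (E n)) : Set (Pairs Ω) :=
  {p | ∃ φ : E n → ℂ, ContDiff ℝ (⊤ : ℕ∞) φ ∧ HasCompactSupport φ ∧ Disjoint (tsupport φ) D ∧
    rep (pfn p) =ᵐ[volume.restrict Ω] φ ∧ rep (pgr p) =ᵐ[volume.restrict Ω] grad φ}

/-- The form domain, as a subspace: the closure in `H¹(Ω)` of the functions `φ|Ω`,
`φ ∈ C_c^∞(ℝⁿ \ D)`. An element `u` of it is recorded as the pair `(u, ∇u)`. -/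
noncomputable def subV {n : ℕ} (Ω D : Set (E n)) : Submodule ℂ (Pairs Ω) :=
  (Submodule.span ℂ (testPairs Ω D)).topologicalClosure

/-- The form domain `V`, with the norm of `H¹(Ω)`. -/
def V {n : ℕ} (Ω D : Set (E n)) : Type := subV Ω D

noncomputable instance instNormedV {n : ℕ} (Ω D : Set (E n)) : NormedAddCommGroup (V Ω D) :=
  (inferInstance : NormedAddCommGroup (subV Ω D))

/-- The pair `(u, ∇u)` of an element `u` of the form domain. -/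
def pair {n : ℕ} {Ω D : Set (E n)} (u : V Ω D) : Pairs Ω := Subtype.val (u : subV Ω D)

/-- The element `u` of `V`, as an element of `H = L²(Ω)`. -/
def fn {n : ℕ} {Ω D : Set (E n)} (u : V Ω D) : L2 Ω ℂ := pfn (pair u)

/-- The gradient `∇u` of an element `u` of `V`. -/
noncomputable def nab {n : ℕ} {Ω D : Set (E n)} (u : V Ω D) : E n → Cn n := rep (pgr (pair u))

/-- The form `𝔞(t, u, v) = ∫_Ω A(t,x) ∇u · conj (∇v) dx`. -/
noncomputable def form {n : ℕ} {Ω D : Set (E n)} (A : ℝ → E n → Matrix (Fin n) (Fin n) ℂ) (t : ℝ)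
    (u v : V Ω D) : ℂ :=
  ∫ x in Ω, ∑ i, ∑ j, A t x i j * co (nab u x) j * (starRingEnd ℂ) (co (nab v x) i)

/-- `A : [0,T] × Ω → ℂ^{n×n}` is measurable, `|A(t,x) ξ| ≤ Λ |ξ|` and
`Re A(t,x) ξ · conj ξ ≥ λ |ξ|²`, for some `0 < λ ≤ Λ`. -/
def IsElliptic {n : ℕ} (T : ℝ) (Ω : Set (E n)) (A : ℝ → E n → Matrix (Fin n) (Fin n) ℂ) : Prop :=
  (∀ i j, Measurable (fun p : ℝ × E n => A p.1 p.2 i j)) ∧
  ∃ lam Lam : ℝ, 0 < lam ∧ lam ≤ Lam ∧ ∀ t ∈ Icc 0 T, ∀ x ∈ Ω, ∀ ξ : Cn n,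
    ‖vec (fun i => ∑ j, A t x i j * co ξ j)‖ ≤ Lam * ‖ξ‖ ∧
    lam * ‖ξ‖ ^ 2 ≤ (∑ i, ∑ j, A t x i j * co ξ j * (starRingEnd ℂ) (co ξ i)).re

/-- `‖𝔄(t) - 𝔄(s)‖_{V → V*} ≤ C |t - s|^{1/2}` for `t, s ∈ [0,T]`, for some `C`; here
`⟨𝔄(t) u, v⟩ = 𝔞(t, u, v)`. -/
def HalfHolder {n : ℕ} (T : ℝ) (Ω D : Set (E n)) (A : ℝ → E n → Matrix (Fin n) (Fin n) ℂ) : Prop :=
  ∃ C : ℝ, ∀ t ∈ Icc 0 T, ∀ s ∈ Icc 0 T, ∀ u v : V Ω D,
    ‖form A t u v - form A s u v‖ ≤ C * |t - s| ^ (1 / 2 : ℝ) * ‖u‖ * ‖v‖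

/-- `u` is the solution of `u' + 𝔄 u = f` on `(0,T)`, `u(0) = 0`, in the sense of J.-L. Lions:
`u ∈ L²(0,T;V)` and `u(t) = ∫₀ᵗ (f(s) - 𝔄(s) u(s)) ds` in `V*` for almost all `t ∈ (0,T)`, that is,
`u ∈ H¹(0,T;V*)` with `u' = f - 𝔄 u` and `u(0) = 0`. -/
def IsSolution {n : ℕ} (T : ℝ) {Ω D : Set (E n)} (A : ℝ → E n → Matrix (Fin n) (Fin n) ℂ)
    (f : ℝ → L2 Ω ℂ) (u : ℝ → V Ω D) : Prop :=
  MemLp u 2 (volume.restrict (Ioo 0 T)) ∧
  ∀ v : V Ω D, IntegrableOn (fun s => ip (f s) (fn v) - form A s (u s) v) (Ioo 0 T) ∧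
    ∀ᵐ t ∂(volume.restrict (Ioo 0 T)),
      ip (fn (u t)) (fn v) = ∫ s in (0 : ℝ)..t, (ip (f s) (fn v) - form A s (u s) v)

/-- `u ∈ H¹(0,T;H)`: `u ∈ L²(0,T;H)` has a weak derivative `g ∈ L²(0,T;H)`. -/
def MemH1 {n : ℕ} (T : ℝ) {Ω : Set (E n)} (u : ℝ → L2 Ω ℂ) : Prop :=
  MemLp u 2 (volume.restrict (Ioo 0 T)) ∧
  ∃ g : ℝ → L2 Ω ℂ, MemLp g 2 (volume.restrict (Ioo 0 T)) ∧
    ∀ ψ : ℝ → ℝ, ContDiff ℝ (⊤ : ℕ∞) ψ → HasCompactSupport ψ → tsupport ψ ⊆ Ioo 0 T →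
      ∫ t in Ioo 0 T, deriv ψ t • u t = - ∫ t in Ioo 0 T, ψ t • g t

/-- The form has maximal regularity in `H = L²(Ω)`: for all `f ∈ L²(0,T;H)` the solution `u` of
`u' + 𝔄 u = f`, `u(0) = 0`, lies in `H¹(0,T;H)`. -/
def MaximalRegularity {n : ℕ} (T : ℝ) (Ω D : Set (E n))
    (A : ℝ → E n → Matrix (Fin n) (Fin n) ℂ) : Prop :=
  ∀ f : ℝ → L2 Ω ℂ, MemLp f 2 (volume.restrict (Ioo 0 T)) →
    ∀ u : ℝ → V Ω D, IsSolution T A f u → MemH1 T (fun t => fn (u t))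

end Pool.Agent.H681R3.MR.Stmt
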