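import Pool.Agent.H681R3.MR.Final
import Pool.Agent.H681R3.MR.Stmt

open MeasureTheory Set Filter Topology
open Pool.Agent.H681R3.MR

namespace Pool.Agent.H681R3.MR.Bridge

theorem ell {n : ℕ} (T : ℝ) (Ω : Set (E n)) (A : ℝ → E n → Matrix (Fin n) (Fin n) ℂ) :
    IsElliptic T Ω A ↔ Stmt.IsElliptic T Ω A := Iff.rfl

theorem hold {n : ℕ} (T : ℝ) (Ω D : Set (E n)) (A : ℝ → E n → Matrix (Fin n) (Fin n) ℂ) :
    HalfHolder T Ω D A ↔ Stmt.HalfHolder T Ω D A := Iff.rfl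

theorem mr {n : ℕ} (T : ℝ) (Ω D : Set (E n)) (A : ℝ → E n → Matrix (Fin n) (Fin n) ℂ) :
    MaximalRegularity T Ω D A ↔ Stmt.MaximalRegularity T Ω D A := Iff.rfl

end Pool.Agent.H681R3.MR.Bridge
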