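import Mathlib

/-!
# The lacunary series
-/

open MeasureTheory Set Filter Topology
open scoped Real

namespace Pool.Agent.H681R3.MR

/-- the frequencies -/
noncomputable def lam (k : ℕ) : ℝ := 4 * 2 ^ k

theorem lam_pos (k : ℕ) : 0 < lam k := by unfold lam; positivity

theorem lam_inv (k : ℕ) : (lam k)⁻¹ = (1 / 4) * (1 / 2 : ℝ) ^ k := by
  unfold lam; rw [mul_inv, one_div_pow]; ring

theorem hd_congr {f g : ℝ → ℝ} {a b x : ℝ} (h : HasDerivAt f a x) (hf : ∀ y, g y = f y) (hab : b = a) :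
    HasDerivAt g b x := by
  obtain rfl : g = f := funext hf
  subst hab; exact h

theorem hs_congr {f g : ℕ → ℝ} {a b : ℝ} (h : HasSum f a) (hf : ∀ y, g y = f y) (hab : b = a) :
    HasSum g b := by
  obtain rfl : g = f := funext hf
  subst hab; exact h

theorem hasSum_lam_inv : HasSum (fun k => (lam k)⁻¹) (1 / 2) := by
  have h := (hasSum_geometric_of_lt_one (r := (1 / 2 : ℝ)) (by norm_num) (by norm_num)).mul_left (1 / 4 : ℝ)
  refine hs_congr h (fun k => by rw [lam_inv]) (by norm_num)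

theorem hasSum_lam_inv_sq : HasSum (fun k => (lam k)⁻¹ ^ 2) (1 / 12) := by
  have h := (hasSum_geometric_of_lt_one (r := (1 / 4 : ℝ)) (by norm_num) (by norm_num)).mul_left (1 / 16 : ℝ)
  refine hs_congr h (fun k => ?_) (by norm_num)
  rw [lam_inv, mul_pow, ← pow_mul, mul_comm k 2, pow_mul]; norm_num

theorem lam_sq_mul (k : ℕ) : (lam k)⁻¹ ^ 2 * (lam k) ^ 2 = 1 := by
  have := (lam_pos k).ne'
  field_simp

/-- the terms -/
noncomputable def sT (k : ℕ) (p : ℝ × ℝ) : ℝ :=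
  (lam k)⁻¹ ^ 2 * (Real.sin (lam k ^ 2 * p.1) * Real.cos (lam k * p.2))
noncomputable def pT (k : ℕ) (p : ℝ × ℝ) : ℝ :=
  -((lam k)⁻¹ * (Real.sin (lam k ^ 2 * p.1) * Real.sin (lam k * p.2)))
noncomputable def rT (k : ℕ) (p : ℝ × ℝ) : ℝ :=
  (lam k)⁻¹ * (Real.cos (lam k ^ 2 * p.1) * Real.sin (lam k * p.2))
noncomputable def qT (k : ℕ) (p : ℝ × ℝ) : ℝ :=
  Real.cos (lam k ^ 2 * p.1) * Real.cos (lam k * p.2)

theorem sT_cont (k : ℕ) : Continuous (sT k) := by unfold sT; fun_prop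
theorem pT_cont (k : ℕ) : Continuous (pT k) := by unfold pT; fun_prop
theorem rT_cont (k : ℕ) : Continuous (rT k) := by unfold rT; fun_prop
theorem qT_cont (k : ℕ) : Continuous (qT k) := by unfold qT; fun_prop

theorem abs_mul_le_one {a b : ℝ} (ha : |a| ≤ 1) (hb : |b| ≤ 1) : |a * b| ≤ 1 := by
  rw [abs_mul]; exact mul_le_one₀ ha (abs_nonneg _) hb

theorem sT_bd (k : ℕ) (p : ℝ × ℝ) : ‖sT k p‖ ≤ (lam k)⁻¹ ^ 2 := by
  unfold sT
  rw [Real.norm_eq_abs, abs_mul, abs_of_nonneg (by positivity : (0:ℝ) ≤ (lam k)⁻¹ ^ 2)]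
  exact mul_le_of_le_one_right (by positivity)
    (abs_mul_le_one (Real.abs_sin_le_one _) (Real.abs_cos_le_one _))

theorem pT_bd (k : ℕ) (p : ℝ × ℝ) : ‖pT k p‖ ≤ (lam k)⁻¹ := by
  have := lam_pos k
  unfold pT
  rw [Real.norm_eq_abs, abs_neg, abs_mul, abs_of_nonneg (by positivity : (0:ℝ) ≤ (lam k)⁻¹)]
  exact mul_le_of_le_one_right (by positivity)
    (abs_mul_le_one (Real.abs_sin_le_one _) (Real.abs_sin_le_one _))

theorem rT_bd (k : ℕ) (p : ℝ × ℝ) : ‖rT k p‖ ≤ (lam k)⁻¹ := by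
  have := lam_pos k
  unfold rT
  rw [Real.norm_eq_abs, abs_mul, abs_of_nonneg (by positivity : (0:ℝ) ≤ (lam k)⁻¹)]
  exact mul_le_of_le_one_right (by positivity)
    (abs_mul_le_one (Real.abs_cos_le_one _) (Real.abs_sin_le_one _))

/-- partial sums -/
noncomputable def sK (K : ℕ) (p : ℝ × ℝ) : ℝ := ∑ k ∈ Finset.range K, sT k p
noncomputable def pK (K : ℕ) (p : ℝ × ℝ) : ℝ := ∑ k ∈ Finset.range K, pT k p
noncomputable def rK (K : ℕ) (p : ℝ × ℝ) : ℝ := ∑ k ∈ Finset.range K, rT k p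
noncomputable def qK (K : ℕ) (p : ℝ × ℝ) : ℝ := ∑ k ∈ Finset.range K, qT k p

/-- sums -/
noncomputable def sS (p : ℝ × ℝ) : ℝ := ∑' k, sT k p
noncomputable def pS (p : ℝ × ℝ) : ℝ := ∑' k, pT k p
noncomputable def rS (p : ℝ × ℝ) : ℝ := ∑' k, rT k p

theorem sK_cont (K : ℕ) : Continuous (sK K) := continuous_finsetSum _ fun k _ => sT_cont k
theorem pK_cont (K : ℕ) : Continuous (pK K) := continuous_finsetSum _ fun k _ => pT_cont k
theorem rK_cont (K : ℕ) : Continuous (rK K) := continuous_finsetSum _ fun k _ => rT_cont k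
theorem qK_cont (K : ℕ) : Continuous (qK K) := continuous_finsetSum _ fun k _ => qT_cont k

theorem sS_cont : Continuous sS := continuous_tsum sT_cont hasSum_lam_inv_sq.summable sT_bd
theorem pS_cont : Continuous pS := continuous_tsum pT_cont hasSum_lam_inv.summable pT_bd
theorem rS_cont : Continuous rS := continuous_tsum rT_cont hasSum_lam_inv.summable rT_bd

theorem sS_unif : TendstoUniformly sK sS atTop :=
  tendstoUniformly_tsum_nat hasSum_lam_inv_sq.summable sT_bd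
theorem pS_unif : TendstoUniformly pK pS atTop :=
  tendstoUniformly_tsum_nat hasSum_lam_inv.summable pT_bd
theorem rS_unif : TendstoUniformly rK rS atTop :=
  tendstoUniformly_tsum_nat hasSum_lam_inv.summable rT_bd

theorem sK_bd (K : ℕ) (p : ℝ × ℝ) : |sK K p| ≤ 1 / 12 := by
  refine (Finset.abs_sum_le_sum_abs _ _).trans ((Finset.sum_le_sum fun k _ => sT_bd k p).trans ?_)
  exact sum_le_hasSum _ (fun _ _ => by positivity) hasSum_lam_inv_sq
theorem pK_bd (K : ℕ) (p : ℝ × ℝ) : |pK K p| ≤ 1 / 2 := by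
  refine (Finset.abs_sum_le_sum_abs _ _).trans ((Finset.sum_le_sum fun k _ => pT_bd k p).trans ?_)
  exact sum_le_hasSum _ (fun k _ => (inv_pos.2 (lam_pos k)).le) hasSum_lam_inv
theorem rK_bd (K : ℕ) (p : ℝ × ℝ) : |rK K p| ≤ 1 / 2 := by
  refine (Finset.abs_sum_le_sum_abs _ _).trans ((Finset.sum_le_sum fun k _ => rT_bd k p).trans ?_)
  exact sum_le_hasSum _ (fun k _ => (inv_pos.2 (lam_pos k)).le) hasSum_lam_inv

theorem sS_bd (p : ℝ × ℝ) : |sS p| ≤ 1 / 12 :=
  le_of_tendsto ((sS_unif.tendsto_at p).abs) (Eventually.of_forall fun K => sK_bd K p)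
theorem pS_bd (p : ℝ × ℝ) : |pS p| ≤ 1 / 2 :=
  le_of_tendsto ((pS_unif.tendsto_at p).abs) (Eventually.of_forall fun K => pK_bd K p)
theorem rS_bd (p : ℝ × ℝ) : |rS p| ≤ 1 / 2 :=
  le_of_tendsto ((rS_unif.tendsto_at p).abs) (Eventually.of_forall fun K => rK_bd K p)

/-! ## Derivatives of the partial sums -/

theorem hasDerivAt_sT_x (k : ℕ) (t x : ℝ) : HasDerivAt (fun x => sT k (t, x)) (pT k (t, x)) x := by
  unfold sT pT
  have h : HasDerivAt (fun x => Real.cos (lam k * x)) (-Real.sin (lam k * x) * (lam k * 1)) x :=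
    ((hasDerivAt_id x).const_mul (lam k)).cos
  have h2 := (h.const_mul (Real.sin (lam k ^ 2 * t))).const_mul ((lam k)⁻¹ ^ 2)
  refine hd_congr h2 (fun y => rfl) ?_
  have := (lam_pos k).ne'
  simp only
  field_simp

theorem hasDerivAt_sT_t (k : ℕ) (t x : ℝ) : HasDerivAt (fun t => sT k (t, x)) (qT k (t, x)) t := by
  unfold sT qT
  have h : HasDerivAt (fun t => Real.sin (lam k ^ 2 * t)) (Real.cos (lam k ^ 2 * t) * (lam k ^ 2 * 1)) t :=
    ((hasDerivAt_id t).const_mul (lam k ^ 2)).sin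
  have h2 := (h.mul_const (Real.cos (lam k * x))).const_mul ((lam k)⁻¹ ^ 2)
  refine hd_congr h2 (fun y => rfl) ?_
  have := (lam_pos k).ne'
  simp only
  field_simp

theorem hasDerivAt_rT_x (k : ℕ) (t x : ℝ) : HasDerivAt (fun x => rT k (t, x)) (qT k (t, x)) x := by
  unfold rT qT
  have h : HasDerivAt (fun x => Real.sin (lam k * x)) (Real.cos (lam k * x) * (lam k * 1)) x :=
    ((hasDerivAt_id x).const_mul (lam k)).sin
  have h2 := (h.const_mul (Real.cos (lam k ^ 2 * t))).const_mul ((lam k)⁻¹)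
  refine hd_congr h2 (fun y => rfl) ?_
  have := (lam_pos k).ne'
  simp only
  field_simp

theorem hasDerivAt_sK_x (K : ℕ) (t x : ℝ) : HasDerivAt (fun x => sK K (t, x)) (pK K (t, x)) x := by
  unfold sK pK
  exact HasDerivAt.fun_sum fun k _ => hasDerivAt_sT_x k t x

theorem hasDerivAt_sK_t (K : ℕ) (t x : ℝ) : HasDerivAt (fun t => sK K (t, x)) (qK K (t, x)) t := by
  unfold sK qK
  exact HasDerivAt.fun_sum fun k _ => hasDerivAt_sT_t k t x

theorem hasDerivAt_rK_x (K : ℕ) (t x : ℝ) : HasDerivAt (fun x => rK K (t, x)) (qK K (t, x)) x := by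
  unfold rK qK
  exact HasDerivAt.fun_sum fun k _ => hasDerivAt_rT_x k t x

/-! ## The solution, its derivative and the flux -/

noncomputable def uK (K : ℕ) (p : ℝ × ℝ) : ℝ := p.1 * (-Real.cos p.2 + Real.sin p.2 ^ 2 * sK K p)
noncomputable def wK (K : ℕ) (p : ℝ × ℝ) : ℝ :=
  p.1 * (Real.sin p.2 + (2 * Real.sin p.2 * Real.cos p.2 * sK K p + Real.sin p.2 ^ 2 * pK K p))
noncomputable def hK (K : ℕ) (p : ℝ × ℝ) : ℝ := p.1 * (Real.sin p.2 + Real.sin p.2 ^ 2 * rK K p)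
noncomputable def fK (K : ℕ) (p : ℝ × ℝ) : ℝ :=
  (-Real.cos p.2 + Real.sin p.2 ^ 2 * sK K p) -
    p.1 * (Real.cos p.2 + 2 * Real.sin p.2 * Real.cos p.2 * rK K p)
noncomputable def gK (K : ℕ) (p : ℝ × ℝ) : ℝ :=
  p.1 * (Real.cos p.2 + (2 * Real.sin p.2 * Real.cos p.2 * rK K p + Real.sin p.2 ^ 2 * qK K p))

noncomputable def uS (p : ℝ × ℝ) : ℝ := p.1 * (-Real.cos p.2 + Real.sin p.2 ^ 2 * sS p)
noncomputable def wS (p : ℝ × ℝ) : ℝ :=
  p.1 * (Real.sin p.2 + (2 * Real.sin p.2 * Real.cos p.2 * sS p + Real.sin p.2 ^ 2 * pS p))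
noncomputable def hS (p : ℝ × ℝ) : ℝ := p.1 * (Real.sin p.2 + Real.sin p.2 ^ 2 * rS p)
noncomputable def fS (p : ℝ × ℝ) : ℝ :=
  (-Real.cos p.2 + Real.sin p.2 ^ 2 * sS p) -
    p.1 * (Real.cos p.2 + 2 * Real.sin p.2 * Real.cos p.2 * rS p)

theorem uK_cont (K : ℕ) : Continuous (uK K) := by have := sK_cont K; unfold uK; fun_prop
theorem wK_cont (K : ℕ) : Continuous (wK K) := by
  have := sK_cont K; have := pK_cont K; unfold wK; fun_prop
theorem hK_cont (K : ℕ) : Continuous (hK K) := by have := rK_cont K; unfold hK; fun_prop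
theorem fK_cont (K : ℕ) : Continuous (fK K) := by
  have := sK_cont K; have := rK_cont K; unfold fK; fun_prop
theorem gK_cont (K : ℕ) : Continuous (gK K) := by
  have := rK_cont K; have := qK_cont K; unfold gK; fun_prop
theorem uS_cont : Continuous uS := by have := sS_cont; unfold uS; fun_prop
theorem wS_cont : Continuous wS := by have := sS_cont; have := pS_cont; unfold wS; fun_prop
theorem hS_cont : Continuous hS := by have := rS_cont; unfold hS; fun_prop
theorem fS_cont : Continuous fS := by have := sS_cont; have := rS_cont; unfold fS; fun_prop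

theorem hasDerivAt_uK_x (K : ℕ) (t x : ℝ) : HasDerivAt (fun x => uK K (t, x)) (wK K (t, x)) x := by
  unfold uK wK
  have h1 := (Real.hasDerivAt_cos x).neg
  have h2 : HasDerivAt (fun x => Real.sin x ^ 2) (2 * Real.sin x * Real.cos x) x :=
    hd_congr ((Real.hasDerivAt_sin x).pow 2) (fun y => rfl) (by norm_num)
  have h3 := (h1.add (h2.mul (hasDerivAt_sK_x K t x))).const_mul t
  refine hd_congr h3 (fun y => rfl) ?_
  simp only
  ring

theorem hasDerivAt_uK_t (K : ℕ) (t x : ℝ) :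
    HasDerivAt (fun t => uK K (t, x)) (fK K (t, x) + gK K (t, x)) t := by
  unfold uK fK gK
  have h1 : HasDerivAt (fun t => -Real.cos x + Real.sin x ^ 2 * sK K (t, x))
      (Real.sin x ^ 2 * qK K (t, x)) t :=
    ((hasDerivAt_sK_t K t x).const_mul (Real.sin x ^ 2)).const_add _
  have h3 := (hasDerivAt_id t).mul h1
  refine hd_congr h3 (fun y => rfl) ?_
  simp only [id]
  ring

theorem hasDerivAt_hK_x (K : ℕ) (t x : ℝ) : HasDerivAt (fun x => hK K (t, x)) (gK K (t, x)) x := by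
  unfold hK gK
  have h1 := (Real.hasDerivAt_sin x)
  have h2 : HasDerivAt (fun x => Real.sin x ^ 2) (2 * Real.sin x * Real.cos x) x :=
    hd_congr ((Real.hasDerivAt_sin x).pow 2) (fun y => rfl) (by norm_num)
  have h3 := (h1.add (h2.mul (hasDerivAt_rK_x K t x))).const_mul t
  exact hd_congr h3 (fun y => rfl) rfl

end Pool.Agent.H681R3.MR
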