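import Pool.Agent.H681R3.MR.Core

/-!
# The weak identity, and the coefficient
-/

open MeasureTheory Set Filter Topology
open scoped Real

namespace Pool.Agent.H681R3.MR

theorem gK_parts (K : ℕ) (s : ℝ) (ψ ψ' : ℝ → ℂ) (hψ : ∀ x, HasDerivAt ψ (ψ' x) x)
    (hψ' : Continuous ψ') :
    ∫ x in (0 : ℝ)..π, (gK K (s, x) : ℂ) * ψ x = - ∫ x in (0 : ℝ)..π, (hK K (s, x) : ℂ) * ψ' x := by
  have hc : Continuous ψ := continuous_iff_continuousAt.2 fun x => (hψ x).continuousAt
  have h1 : ∀ x, HasDerivAt (fun x => (hK K (s, x) : ℂ)) ((gK K (s, x) : ℝ) : ℂ) x := fun x =>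
    (hasDerivAt_hK_x K s x).ofReal_comp
  have hg : Continuous fun x => ((gK K (s, x) : ℝ) : ℂ) := by
    have := gK_cont K; fun_prop
  have h2 := intervalIntegral.integral_mul_deriv_eq_deriv_mul (a := 0) (b := π)
    (fun x _ => h1 x) (fun x _ => hψ x) (hg.intervalIntegrable _ _) (hψ'.intervalIntegrable _ _)
  rw [h2]
  have e1 : hK K (s, π) = 0 := by unfold hK; simp
  have e2 : hK K (s, 0) = 0 := by unfold hK; simp
  rw [e1, e2]; simp

theorem uK_eq_integral (K : ℕ) (t x : ℝ) :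
    uK K (t, x) = ∫ s in (0 : ℝ)..t, (fK K (s, x) + gK K (s, x)) := by
  have hf := fK_cont K
  have hg := gK_cont K
  rw [intervalIntegral.integral_eq_sub_of_hasDerivAt (f := fun t => uK K (t, x))
    (fun s _ => hasDerivAt_uK_t K s x)]
  · unfold uK; simp
  · exact Continuous.intervalIntegrable (by fun_prop) _ _

theorem ident_K (K : ℕ) (t : ℝ) (ψ ψ' : ℝ → ℂ) (hψ : ∀ x, HasDerivAt ψ (ψ' x) x)
    (hψ' : Continuous ψ') :
    ∫ x in (0 : ℝ)..π, (uK K (t, x) : ℂ) * ψ x =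
      ∫ s in (0 : ℝ)..t, ((∫ x in (0 : ℝ)..π, (fK K (s, x) : ℂ) * ψ x) -
        ∫ x in (0 : ℝ)..π, (hK K (s, x) : ℂ) * ψ' x) := by
  have hc : Continuous ψ := continuous_iff_continuousAt.2 fun x => (hψ x).continuousAt
  have hf := fK_cont K
  have hg := gK_cont K
  have h1 : ∀ x, (uK K (t, x) : ℂ) * ψ x =
      ∫ s in (0 : ℝ)..t, ((fK K (s, x) : ℂ) + (gK K (s, x) : ℂ)) * ψ x := by
    intro x
    rw [uK_eq_integral, ← intervalIntegral.integral_ofReal, ← intervalIntegral.integral_mul_const]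
    push_cast
    rfl
  simp_rw [h1]
  rw [intervalIntegral_intervalIntegral_swap]
  · congr 1
    ext s
    have h2 : ∀ x, ((fK K (s, x) : ℂ) + (gK K (s, x) : ℂ)) * ψ x =
      (fK K (s, x) : ℂ) * ψ x + (gK K (s, x) : ℂ) * ψ x := fun x => by ring
    simp_rw [h2]
    rw [intervalIntegral.integral_add, gK_parts K s ψ ψ' hψ hψ', sub_eq_add_neg]
    · exact Continuous.intervalIntegrable (by fun_prop) _ _
    · exact Continuous.intervalIntegrable (by fun_prop) _ _
  · have hcont : Continuous (Function.uncurry fun x s =>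
        ((fK K (s, x) : ℂ) + (gK K (s, x) : ℂ)) * ψ x) := by
      unfold Function.uncurry
      fun_prop
    refine (hcont.continuousOn.integrableOn_compact
      (isCompact_uIcc.prod isCompact_uIcc) : IntegrableOn _ (uIcc 0 π ×ˢ uIcc 0 t) _).mono_set ?_
    exact prod_mono uIoc_subset_uIcc uIoc_subset_uIcc

/-! ## Passing to the limit -/

theorem sK_tendsto (p : ℝ × ℝ) : Tendsto (fun K => sK K p) atTop (𝓝 (sS p)) := sS_unif.tendsto_at p
theorem pK_tendsto (p : ℝ × ℝ) : Tendsto (fun K => pK K p) atTop (𝓝 (pS p)) := pS_unif.tendsto_at p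
theorem rK_tendsto (p : ℝ × ℝ) : Tendsto (fun K => rK K p) atTop (𝓝 (rS p)) := rS_unif.tendsto_at p

theorem uK_tendsto (p : ℝ × ℝ) : Tendsto (fun K => uK K p) atTop (𝓝 (uS p)) := by
  unfold uK uS
  exact (((sK_tendsto p).const_mul _).const_add _).const_mul _
theorem wK_tendsto (p : ℝ × ℝ) : Tendsto (fun K => wK K p) atTop (𝓝 (wS p)) := by
  unfold wK wS
  exact ((((sK_tendsto p).const_mul _).add ((pK_tendsto p).const_mul _)).const_add _).const_mul _
theorem hK_tendsto (p : ℝ × ℝ) : Tendsto (fun K => hK K p) atTop (𝓝 (hS p)) := by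
  unfold hK hS
  exact (((rK_tendsto p).const_mul _).const_add _).const_mul _
theorem fK_tendsto (p : ℝ × ℝ) : Tendsto (fun K => fK K p) atTop (𝓝 (fS p)) := by
  unfold fK fS
  exact (((sK_tendsto p).const_mul _).const_add _).sub
    ((((rK_tendsto p).const_mul _).const_add _).const_mul _)

theorem sin_sq_le (x : ℝ) : |Real.sin x ^ 2| ≤ 1 := by
  rw [abs_of_nonneg (sq_nonneg _)]; exact Real.sin_sq_le_one x

theorem uK_bd (K : ℕ) (p : ℝ × ℝ) : |uK K p| ≤ 2 * |p.1| := by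
  unfold uK
  rw [abs_mul, mul_comm]
  refine mul_le_mul_of_nonneg_right ?_ (abs_nonneg _)
  refine (abs_add_le _ _).trans ?_
  rw [abs_neg]
  have h1 := Real.abs_cos_le_one p.2
  have h2 := abs_mul_le_one (sin_sq_le p.2) ((sK_bd K p).trans (by norm_num))
  linarith

theorem wK_bd (K : ℕ) (p : ℝ × ℝ) : |wK K p| ≤ 4 * |p.1| := by
  unfold wK
  rw [abs_mul, mul_comm]
  refine mul_le_mul_of_nonneg_right ?_ (abs_nonneg _)
  have h1 := Real.abs_sin_le_one p.2
  have h2 := abs_mul_le_one (sin_sq_le p.2) ((pK_bd K p).trans (by norm_num))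
  have h3 : |2 * Real.sin p.2 * Real.cos p.2 * sK K p| ≤ 2 := by
    rw [show 2 * Real.sin p.2 * Real.cos p.2 * sK K p = 2 * (Real.sin p.2 * (Real.cos p.2 * sK K p)) by ring,
      abs_mul, abs_two]
    have := abs_mul_le_one h1 (abs_mul_le_one (Real.abs_cos_le_one p.2) ((sK_bd K p).trans (by norm_num)))
    linarith
  refine (abs_add_le _ _).trans ?_
  have h4 := abs_add_le (2 * Real.sin p.2 * Real.cos p.2 * sK K p) (Real.sin p.2 ^ 2 * pK K p)
  linarith

theorem hK_bd (K : ℕ) (p : ℝ × ℝ) : |hK K p| ≤ 2 * |p.1| := by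
  unfold hK
  rw [abs_mul, mul_comm]
  refine mul_le_mul_of_nonneg_right ?_ (abs_nonneg _)
  refine (abs_add_le _ _).trans ?_
  have h1 := Real.abs_sin_le_one p.2
  have h2 := abs_mul_le_one (sin_sq_le p.2) ((rK_bd K p).trans (by norm_num))
  linarith

theorem fK_bd (K : ℕ) (p : ℝ × ℝ) : |fK K p| ≤ 2 + 3 * |p.1| := by
  unfold fK
  refine (abs_sub _ _).trans ?_
  have h1 := Real.abs_sin_le_one p.2
  have h0 := Real.abs_cos_le_one p.2
  have h2 := abs_mul_le_one (sin_sq_le p.2) ((sK_bd K p).trans (by norm_num))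
  have h3 : |2 * Real.sin p.2 * Real.cos p.2 * rK K p| ≤ 2 := by
    rw [show 2 * Real.sin p.2 * Real.cos p.2 * rK K p = 2 * (Real.sin p.2 * (Real.cos p.2 * rK K p)) by ring,
      abs_mul, abs_two]
    have := abs_mul_le_one h1 (abs_mul_le_one (Real.abs_cos_le_one p.2) ((rK_bd K p).trans (by norm_num)))
    linarith
  have h4 := abs_add_le (-Real.cos p.2) (Real.sin p.2 ^ 2 * sK K p)
  rw [abs_neg] at h4
  have h5 := abs_add_le (Real.cos p.2) (2 * Real.sin p.2 * Real.cos p.2 * rK K p)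
  rw [abs_mul]
  nlinarith [abs_nonneg p.1]

/-- limits of integrals in `x` -/
theorem tendsto_int_x (aK : ℕ → ℝ × ℝ → ℝ) (aS : ℝ × ℝ → ℝ) (ψ : ℝ → ℂ) (hψ : Continuous ψ)
    (hc : ∀ K, Continuous (aK K)) (ht : ∀ p, Tendsto (fun K => aK K p) atTop (𝓝 (aS p)))
    (C : ℝ) (s : ℝ) (hb : ∀ K x, |aK K (s, x)| ≤ C) :
    Tendsto (fun K => ∫ x in (0 : ℝ)..π, (aK K (s, x) : ℂ) * ψ x) atTop
      (𝓝 (∫ x in (0 : ℝ)..π, (aS (s, x) : ℂ) * ψ x)) := by
  refine intervalIntegral.tendsto_integral_filter_of_dominated_convergence (fun x => C * ‖ψ x‖) ?_ ?_ ?_ ?_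
  · refine Eventually.of_forall fun K => ?_
    have := hc K
    exact (Continuous.aestronglyMeasurable (by fun_prop))
  · refine Eventually.of_forall fun K => Eventually.of_forall fun x _ => ?_
    rw [norm_mul, Complex.norm_real, Real.norm_eq_abs]
    exact mul_le_mul_of_nonneg_right (hb K x) (norm_nonneg _)
  · exact Continuous.intervalIntegrable (by fun_prop) _ _
  · refine Eventually.of_forall fun x _ => ?_
    exact ((Complex.continuous_ofReal.tendsto _).comp (ht (s, x))).mul_const _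

theorem bd_int_x (a : ℝ → ℝ) (ψ : ℝ → ℂ) (hψ : Continuous ψ) (C : ℝ) (hb : ∀ x, |a x| ≤ C) :
    ‖∫ x in (0 : ℝ)..π, (a x : ℂ) * ψ x‖ ≤ C * ∫ x in (0 : ℝ)..π, ‖ψ x‖ := by
  rw [← intervalIntegral.integral_const_mul]
  refine intervalIntegral.norm_integral_le_of_norm_le Real.pi_pos.le
    (Eventually.of_forall fun x _ => ?_) (Continuous.intervalIntegrable (by fun_prop) _ _)
  rw [norm_mul, Complex.norm_real, Real.norm_eq_abs]
  exact mul_le_mul_of_nonneg_right (hb x) (norm_nonneg _)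

theorem ident_S (t : ℝ) (ψ ψ' : ℝ → ℂ) (hψ : ∀ x, HasDerivAt ψ (ψ' x) x)
    (hψ' : Continuous ψ') :
    ∫ x in (0 : ℝ)..π, (uS (t, x) : ℂ) * ψ x =
      ∫ s in (0 : ℝ)..t, ((∫ x in (0 : ℝ)..π, (fS (s, x) : ℂ) * ψ x) -
        ∫ x in (0 : ℝ)..π, (hS (s, x) : ℂ) * ψ' x) := by
  have hc : Continuous ψ := continuous_iff_continuousAt.2 fun x => (hψ x).continuousAt
  have h1 := tendsto_int_x uK uS ψ hc uK_cont uK_tendsto (2 * |t|) t (fun K x => uK_bd K _)
  have h2 : Tendsto (fun K => ∫ s in (0 : ℝ)..t, ((∫ x in (0 : ℝ)..π, (fK K (s, x) : ℂ) * ψ x) -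
        ∫ x in (0 : ℝ)..π, (hK K (s, x) : ℂ) * ψ' x)) atTop
      (𝓝 (∫ s in (0 : ℝ)..t, ((∫ x in (0 : ℝ)..π, (fS (s, x) : ℂ) * ψ x) -
        ∫ x in (0 : ℝ)..π, (hS (s, x) : ℂ) * ψ' x))) := by
    refine intervalIntegral.tendsto_integral_filter_of_dominated_convergence
      (fun s => (2 + 3 * |s|) * (∫ x in (0 : ℝ)..π, ‖ψ x‖) + (2 * |s|) * ∫ x in (0 : ℝ)..π, ‖ψ' x‖) ?_ ?_ ?_ ?_
    · refine Eventually.of_forall fun K => ?_
      have hf := fK_cont K
      have hh := hK_cont K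
      refine Continuous.aestronglyMeasurable ?_
      refine Continuous.sub ?_ ?_
      · exact intervalIntegral.continuous_parametric_intervalIntegral_of_continuous' (by fun_prop) _ _
      · exact intervalIntegral.continuous_parametric_intervalIntegral_of_continuous' (by fun_prop) _ _
    · refine Eventually.of_forall fun K => Eventually.of_forall fun s _ => ?_
      refine (norm_sub_le _ _).trans (add_le_add ?_ ?_)
      · exact bd_int_x _ ψ hc _ fun x => fK_bd K (s, x)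
      · exact bd_int_x _ ψ' hψ' _ fun x => hK_bd K (s, x)
    · exact Continuous.intervalIntegrable (by fun_prop) _ _
    · refine Eventually.of_forall fun s _ => ?_
      exact (tendsto_int_x fK fS ψ hc fK_cont fK_tendsto (2 + 3 * |s|) s (fun K x => fK_bd K _)).sub
        (tendsto_int_x hK hS ψ' hψ' hK_cont hK_tendsto (2 * |s|) s (fun K x => hK_bd K _))
  refine tendsto_nhds_unique h1 ?_
  simp_rw [fun K => ident_K K t ψ ψ' hψ hψ']
  exact h2

/-! ## The coefficient -/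

/-- denominator -/
noncomputable def dS (p : ℝ × ℝ) : ℝ := 1 + (2 * Real.cos p.2 * sS p + Real.sin p.2 * pS p)
/-- numerator -/
noncomputable def nS (p : ℝ × ℝ) : ℝ := 1 + Real.sin p.2 * rS p
noncomputable def aS (p : ℝ × ℝ) : ℝ := nS p / dS p

theorem dS_cont : Continuous dS := by have := sS_cont; have := pS_cont; unfold dS; fun_prop
theorem nS_cont : Continuous nS := by have := rS_cont; unfold nS; fun_prop

theorem abs_mul_le_of {a b c : ℝ} (ha : |a| ≤ 1) (hb : |b| ≤ c) : |a * b| ≤ c := by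
  rw [abs_mul]; nlinarith [abs_nonneg a, abs_nonneg b]

theorem dS_bd (p : ℝ × ℝ) : 1 / 3 ≤ dS p ∧ dS p ≤ 5 / 3 := by
  have h1 := abs_mul_le_of (Real.abs_cos_le_one p.2) (sS_bd p)
  have h2 := abs_mul_le_of (Real.abs_sin_le_one p.2) (pS_bd p)
  rw [abs_le] at h1 h2
  unfold dS
  constructor <;> nlinarith [h1.1, h1.2, h2.1, h2.2]

theorem nS_bd (p : ℝ × ℝ) : 1 / 2 ≤ nS p ∧ nS p ≤ 3 / 2 := by
  have h2 := abs_mul_le_of (Real.abs_sin_le_one p.2) (rS_bd p)
  rw [abs_le] at h2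
  unfold nS
  constructor <;> linarith [h2.1, h2.2]

theorem dS_pos (p : ℝ × ℝ) : 0 < dS p := by linarith [(dS_bd p).1]

theorem aS_cont : Continuous aS := nS_cont.div dS_cont fun p => (dS_pos p).ne'

theorem aS_bd (p : ℝ × ℝ) : 3 / 10 ≤ aS p ∧ aS p ≤ 9 / 2 := by
  have h1 := dS_bd p
  have h2 := nS_bd p
  unfold aS
  constructor
  · rw [le_div_iff₀ (dS_pos p)]; linarith
  · rw [div_le_iff₀ (dS_pos p)]; linarith

theorem aS_mul_wS (p : ℝ × ℝ) : aS p * wS p = hS p := by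
  have h : wS p = p.1 * Real.sin p.2 * dS p := by unfold wS dS; ring
  rw [h]
  unfold aS
  have := (dS_pos p).ne'
  field_simp
  unfold nS hS
  ring

end Pool.Agent.H681R3.MR
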