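import Pool.Agent.H681R3.MR.Core2

/-!
# The Hölder estimate
-/

open MeasureTheory Set Filter Topology
open scoped Real

namespace Pool.Agent.H681R3.MR

noncomputable def bS (K : ℕ) (τ : ℝ) : ℝ := ∑ k ∈ Finset.range K, (1 / 2 : ℝ) ^ k * min 2 (4 ^ k * τ)

theorem bS_succ (K : ℕ) (τ : ℝ) : bS (K + 1) τ = min 2 τ + (1 / 2) * bS K (4 * τ) := by
  unfold bS
  rw [Finset.sum_range_succ', Finset.mul_sum, add_comm]
  congr 1
  · simp
  · refine Finset.sum_congr rfl fun k _ => ?_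
    rw [show (4:ℝ) ^ (k + 1) * τ = 4 ^ k * (4 * τ) by ring]
    ring

theorem bS_le_four (K : ℕ) (τ : ℝ) : bS K τ ≤ 4 := by
  have h : bS K τ ≤ ∑ k ∈ Finset.range K, (1 / 2 : ℝ) ^ k * 2 :=
    Finset.sum_le_sum fun k _ => mul_le_mul_of_nonneg_left (min_le_left _ _) (by positivity)
  refine h.trans ?_
  have h2 := (hasSum_geometric_of_lt_one (r := (1 / 2 : ℝ)) (by norm_num) (by norm_num)).mul_right (2 : ℝ)
  have h3 := sum_le_hasSum (Finset.range K) (fun _ _ => by positivity) h2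
  refine h3.trans (by norm_num)

theorem bS_le (K : ℕ) : ∀ τ : ℝ, 0 ≤ τ → τ ≤ 1 → bS K τ ≤ 9 * √τ - τ := by
  induction K with
  | zero =>
    intro τ h0 h1
    have h2 : bS 0 τ = 0 := by unfold bS; simp
    have h3 : τ = √τ * √τ := (Real.mul_self_sqrt h0).symm
    have h4 : √τ ≤ 1 := Real.sqrt_le_one.2 h1
    have h5 := Real.sqrt_nonneg τ
    rw [h2]
    nlinarith
  | succ K ih =>
    intro τ h0 h1
    have h3 : τ = √τ * √τ := (Real.mul_self_sqrt h0).symm
    have h4 : √τ ≤ 1 := Real.sqrt_le_one.2 h1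
    have h5 := Real.sqrt_nonneg τ
    rcases le_or_gt τ (1 / 4) with h | h
    · have h6 := ih (4 * τ) (by linarith) (by linarith)
      have h7 : √(4 * τ) = 2 * √τ := by
        rw [show 4 * τ = 2 ^ 2 * τ by ring, Real.sqrt_mul (by norm_num), Real.sqrt_sq (by norm_num)]
      rw [h7] at h6
      rw [bS_succ]
      have h8 := min_le_right (2 : ℝ) τ
      linarith
    · have h6 := bS_le_four (K + 1) τ
      have h7 : 1 / 2 ≤ √τ := Real.le_sqrt_of_sq_le (by linarith)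
      nlinarith

theorem bS_le' (K : ℕ) (τ : ℝ) (h0 : 0 ≤ τ) : bS K τ ≤ 9 * √τ := by
  rcases le_or_gt τ 1 with h | h
  · have := bS_le K τ h0 h; linarith
  · have h6 := bS_le_four K τ
    have h7 : 1 ≤ √τ := Real.one_le_sqrt.2 h.le
    linarith

theorem abs_sin_sub_le (a b : ℝ) : |Real.sin a - Real.sin b| ≤ min 2 |a - b| := by
  refine le_min ?_ ?_
  · have := abs_sub (Real.sin a) (Real.sin b)
    have := Real.abs_sin_le_one a
    have := Real.abs_sin_le_one b
    linarith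
  · have := Real.lipschitzWith_sin.dist_le_mul a b
    rw [Real.dist_eq, Real.dist_eq] at this
    simpa using this

theorem abs_cos_sub_le (a b : ℝ) : |Real.cos a - Real.cos b| ≤ min 2 |a - b| := by
  refine le_min ?_ ?_
  · have := abs_sub (Real.cos a) (Real.cos b)
    have := Real.abs_cos_le_one a
    have := Real.abs_cos_le_one b
    linarith
  · have := Real.lipschitzWith_cos.dist_le_mul a b
    rw [Real.dist_eq, Real.dist_eq] at this
    simpa using this

theorem term_bd (k : ℕ) (τ : ℝ) (c : ℝ) (h : c ≤ min 2 (lam k ^ 2 * τ)) :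
    (lam k)⁻¹ * c ≤ (1 / 4) * ((1 / 2 : ℝ) ^ k * min 2 (4 ^ k * (16 * τ))) := by
  have e : lam k ^ 2 * τ = 4 ^ k * (16 * τ) := by
    unfold lam; rw [mul_pow, ← pow_mul, mul_comm k 2, pow_mul]; norm_num; ring
  rw [lam_inv, ← e, mul_assoc]
  exact mul_le_mul_of_nonneg_left (mul_le_mul_of_nonneg_left h (by positivity)) (by norm_num)

theorem sum_bd (K : ℕ) (τ : ℝ) (hτ : 0 ≤ τ) :
    ∑ k ∈ Finset.range K, (1 / 4) * ((1 / 2 : ℝ) ^ k * min 2 (4 ^ k * (16 * τ))) ≤ 9 * √τ := by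
  rw [← Finset.mul_sum]
  have h := bS_le' K (16 * τ) (by positivity)
  have h7 : √(16 * τ) = 4 * √τ := by
    rw [show 16 * τ = 4 ^ 2 * τ by ring, Real.sqrt_mul (by norm_num), Real.sqrt_sq (by norm_num)]
  rw [h7] at h
  unfold bS at h
  linarith

theorem lam_inv_le_one (k : ℕ) : (lam k)⁻¹ ≤ 1 := by
  rw [lam_inv]
  have : (1 / 2 : ℝ) ^ k ≤ 1 := pow_le_one₀ (by norm_num) (by norm_num)
  linarith

theorem sK_holder (K : ℕ) (t s x : ℝ) : |sK K (t, x) - sK K (s, x)| ≤ 9 * √|t - s| := by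
  unfold sK
  rw [← Finset.sum_sub_distrib]
  refine (Finset.abs_sum_le_sum_abs _ _).trans (le_trans ?_ (sum_bd K |t - s| (abs_nonneg _)))
  refine Finset.sum_le_sum fun k _ => ?_
  refine le_trans ?_ (term_bd k |t - s| (min 2 (lam k ^ 2 * |t - s|)) le_rfl)
  have hp := lam_pos k
  unfold sT
  simp only
  rw [← mul_sub, ← sub_mul, abs_mul, abs_mul, abs_of_nonneg (by positivity : (0:ℝ) ≤ (lam k)⁻¹ ^ 2)]
  have h1 := abs_sin_sub_le (lam k ^ 2 * t) (lam k ^ 2 * s)
  rw [← mul_sub, abs_mul, abs_of_nonneg (by positivity : (0:ℝ) ≤ lam k ^ 2)] at h1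
  have h2 := Real.abs_cos_le_one (lam k * x)
  have h3 : (lam k)⁻¹ ^ 2 ≤ (lam k)⁻¹ := by
    have := lam_inv_le_one k
    have := (inv_pos.2 hp).le
    nlinarith
  exact mul_le_mul h3 ((mul_le_of_le_one_right (abs_nonneg _) h2).trans h1) (by positivity)
    (inv_pos.2 hp).le

theorem pK_holder (K : ℕ) (t s x : ℝ) : |pK K (t, x) - pK K (s, x)| ≤ 9 * √|t - s| := by
  unfold pK
  rw [← Finset.sum_sub_distrib]
  refine (Finset.abs_sum_le_sum_abs _ _).trans (le_trans ?_ (sum_bd K |t - s| (abs_nonneg _)))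
  refine Finset.sum_le_sum fun k _ => ?_
  refine le_trans ?_ (term_bd k |t - s| (min 2 (lam k ^ 2 * |t - s|)) le_rfl)
  have hp := lam_pos k
  unfold pT
  simp only
  rw [neg_sub_neg, ← mul_sub, ← sub_mul, abs_mul, abs_mul, abs_of_nonneg (by positivity : (0:ℝ) ≤ (lam k)⁻¹)]
  have h1 := abs_sin_sub_le (lam k ^ 2 * s) (lam k ^ 2 * t)
  rw [← mul_sub, abs_mul, abs_of_nonneg (by positivity : (0:ℝ) ≤ lam k ^ 2), abs_sub_comm s t] at h1
  have h2 := Real.abs_sin_le_one (lam k * x)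
  exact mul_le_mul_of_nonneg_left ((mul_le_of_le_one_right (abs_nonneg _) h2).trans h1) (by positivity)

theorem rK_holder (K : ℕ) (t s x : ℝ) : |rK K (t, x) - rK K (s, x)| ≤ 9 * √|t - s| := by
  unfold rK
  rw [← Finset.sum_sub_distrib]
  refine (Finset.abs_sum_le_sum_abs _ _).trans (le_trans ?_ (sum_bd K |t - s| (abs_nonneg _)))
  refine Finset.sum_le_sum fun k _ => ?_
  refine le_trans ?_ (term_bd k |t - s| (min 2 (lam k ^ 2 * |t - s|)) le_rfl)
  have hp := lam_pos k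
  unfold rT
  simp only
  rw [← mul_sub, ← sub_mul, abs_mul, abs_mul, abs_of_nonneg (by positivity : (0:ℝ) ≤ (lam k)⁻¹)]
  have h1 := abs_cos_sub_le (lam k ^ 2 * t) (lam k ^ 2 * s)
  rw [← mul_sub, abs_mul, abs_of_nonneg (by positivity : (0:ℝ) ≤ lam k ^ 2)] at h1
  have h2 := Real.abs_sin_le_one (lam k * x)
  exact mul_le_mul_of_nonneg_left ((mul_le_of_le_one_right (abs_nonneg _) h2).trans h1) (by positivity)

theorem sS_holder (t s x : ℝ) : |sS (t, x) - sS (s, x)| ≤ 9 * √|t - s| :=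
  le_of_tendsto ((sK_tendsto _).sub (sK_tendsto _)).abs (Eventually.of_forall fun K => sK_holder K t s x)
theorem pS_holder (t s x : ℝ) : |pS (t, x) - pS (s, x)| ≤ 9 * √|t - s| :=
  le_of_tendsto ((pK_tendsto _).sub (pK_tendsto _)).abs (Eventually.of_forall fun K => pK_holder K t s x)
theorem rS_holder (t s x : ℝ) : |rS (t, x) - rS (s, x)| ≤ 9 * √|t - s| :=
  le_of_tendsto ((rK_tendsto _).sub (rK_tendsto _)).abs (Eventually.of_forall fun K => rK_holder K t s x)

theorem nS_holder (t s x : ℝ) : |nS (t, x) - nS (s, x)| ≤ 9 * √|t - s| := by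
  unfold nS
  simp only
  rw [add_sub_add_left_eq_sub, ← mul_sub]
  exact abs_mul_le_of (Real.abs_sin_le_one x) (rS_holder t s x)

theorem dS_holder (t s x : ℝ) : |dS (t, x) - dS (s, x)| ≤ 27 * √|t - s| := by
  unfold dS
  simp only
  have h1 := abs_mul_le_of (Real.abs_cos_le_one x) (sS_holder t s x)
  have h2 := abs_mul_le_of (Real.abs_sin_le_one x) (pS_holder t s x)
  rw [abs_le] at h1 h2 ⊢
  constructor <;> nlinarith [h1.1, h1.2, h2.1, h2.2]

theorem aS_holder (t s x : ℝ) : |aS (t, x) - aS (s, x)| ≤ 600 * √|t - s| := by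
  have h1 := nS_holder t s x
  have h2 := dS_holder t s x
  have h3 := dS_bd (t, x)
  have h4 := dS_bd (s, x)
  have h5 := nS_bd (t, x)
  have h6 := nS_bd (s, x)
  have hr := Real.sqrt_nonneg |t - s|
  unfold aS
  have hd := dS_pos (t, x)
  have hd' := dS_pos (s, x)
  rw [div_sub_div _ _ hd.ne' hd'.ne', abs_div, abs_of_pos (mul_pos hd hd'), div_le_iff₀ (mul_pos hd hd')]
  have e : nS (t, x) * dS (s, x) - dS (t, x) * nS (s, x) =
    (nS (t, x) - nS (s, x)) * dS (s, x) - (dS (t, x) - dS (s, x)) * nS (s, x) := by ring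
  rw [e]
  have h7 : |(nS (t, x) - nS (s, x)) * dS (s, x)| ≤ 9 * √|t - s| * (5 / 3) := by
    rw [abs_mul, abs_of_pos hd']
    exact mul_le_mul h1 h4.2 hd'.le (by positivity)
  have h8 : |(dS (t, x) - dS (s, x)) * nS (s, x)| ≤ 27 * √|t - s| * (3 / 2) := by
    rw [abs_mul, abs_of_pos (by linarith [h6.1] : 0 < nS (s, x))]
    exact mul_le_mul h2 h6.2 (by linarith [h6.1]) (by positivity)
  have h9 := abs_sub ((nS (t, x) - nS (s, x)) * dS (s, x)) ((dS (t, x) - dS (s, x)) * nS (s, x))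
  have h10 : 1 / 9 ≤ dS (t, x) * dS (s, x) := by nlinarith
  have h11 : 600 * √|t - s| * (1 / 9) ≤ 600 * √|t - s| * (dS (t, x) * dS (s, x)) :=
    mul_le_mul_of_nonneg_left h10 (by positivity)
  linarith

end Pool.Agent.H681R3.MR
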