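import Mathlib

/-!
# Non-autonomous maximal regularity for divergence form operators: definitions
-/

open MeasureTheory Set

namespace Pool.Agent.H681R3.MR

/-- The space `ℝⁿ`. -/
abbrev E (n : ℕ) := EuclideanSpace ℝ (Fin n)

/-- The space `ℂⁿ`. -/
abbrev Cn (n : ℕ) := EuclideanSpace ℂ (Fin n)

/-- The Hilbert space `H = L²(Ω)` of complex-valued functions. -/
noncomputable abbrev H {n : ℕ} (Ω : Set (E n)) := Lp ℂ 2 (volume.restrict Ω)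

/-- The Hilbert space `L²(Ω; ℂⁿ)`. -/
noncomputable abbrev Hn {n : ℕ} (Ω : Set (E n)) := Lp (Cn n) 2 (volume.restrict Ω)

/-- The Hilbert space `L²(Ω) × L²(Ω; ℂⁿ)`, with the norm `(‖u‖² + ‖g‖²)^(1/2)`. The Sobolev space
`H¹(Ω)` is the (closed) subspace of the pairs `(u, ∇u)`, with the induced norm. -/
noncomputable abbrev HxHn {n : ℕ} (Ω : Set (E n)) := WithLp 2 (H Ω × Hn Ω)

/-- The gradient of a (smooth) function `φ : ℝⁿ → ℂ`. -/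
noncomputable def grad {n : ℕ} (φ : E n → ℂ) (x : E n) : Cn n :=
  WithLp.toLp 2 (fun i => fderiv ℝ φ x (EuclideanSpace.single i 1))

/-- The pairs `(φ|Ω, ∇φ|Ω)` with `φ ∈ C_c^∞(ℝⁿ \ D)`. -/
def testPairs {n : ℕ} (Ω D : Set (E n)) : Set (HxHn Ω) :=
  {p | ∃ φ : E n → ℂ, ContDiff ℝ (⊤ : ℕ∞) φ ∧ HasCompactSupport φ ∧ Disjoint (tsupport φ) D ∧
    p.fst =ᵐ[volume.restrict Ω] φ ∧ p.snd =ᵐ[volume.restrict Ω] grad φ}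

/-- The form domain `V`: the closure in `H¹(Ω)` of the functions `φ|Ω`, `φ ∈ C_c^∞(ℝⁿ \ D)`. An
element `u` of `V` is recorded as the pair `(u, ∇u)`, so `u.1.fst` is the function and `u.1.snd` its
gradient. The norm is that of `H¹(Ω)`. -/
noncomputable def V {n : ℕ} (Ω D : Set (E n)) : Submodule ℂ (HxHn Ω) :=
  (Submodule.span ℂ (testPairs Ω D)).topologicalClosure

/-- The form `𝔞(t, u, v) = ∫_Ω A(t,x) ∇u · conj (∇v) dx`. -/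
noncomputable def form {n : ℕ} {Ω D : Set (E n)} (A : ℝ → E n → Matrix (Fin n) (Fin n) ℂ) (t : ℝ)
    (u v : V Ω D) : ℂ :=
  ∫ x in Ω, ∑ i, ∑ j, A t x i j * u.1.snd x j * (starRingEnd ℂ) (v.1.snd x i)

/-- `A : [0,T] × Ω → ℂ^{n×n}` is measurable, `|A(t,x) ξ| ≤ Λ |ξ|` and
`Re A(t,x) ξ · conj ξ ≥ λ |ξ|²`, for some `0 < λ ≤ Λ`. -/
def IsElliptic {n : ℕ} (T : ℝ) (Ω : Set (E n)) (A : ℝ → E n → Matrix (Fin n) (Fin n) ℂ) : Prop :=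
  (∀ i j, Measurable (fun p : ℝ × E n => A p.1 p.2 i j)) ∧
  ∃ lam Lam : ℝ, 0 < lam ∧ lam ≤ Lam ∧ ∀ t ∈ Icc 0 T, ∀ x ∈ Ω, ∀ ξ : Cn n,
    ‖(WithLp.toLp 2 (fun i => ∑ j, A t x i j * ξ j) : Cn n)‖ ≤ Lam * ‖ξ‖ ∧
    lam * ‖ξ‖ ^ 2 ≤ (∑ i, ∑ j, A t x i j * ξ j * (starRingEnd ℂ) (ξ i)).re

/-- `‖𝔄(t) - 𝔄(s)‖_{V → V*} ≤ C |t - s|^{1/2}` for `t, s ∈ [0,T]`, for some `C`; here
`⟨𝔄(t) u, v⟩ = 𝔞(t, u, v)`. -/
def HalfHolder {n : ℕ} (T : ℝ) (Ω D : Set (E n)) (A : ℝ → E n → Matrix (Fin n) (Fin n) ℂ) : Prop :=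
  ∃ C : ℝ, ∀ t ∈ Icc 0 T, ∀ s ∈ Icc 0 T, ∀ u v : V Ω D,
    ‖form A t u v - form A s u v‖ ≤ C * |t - s| ^ (1 / 2 : ℝ) * ‖u‖ * ‖v‖

/-- `u` is the solution of `u' + 𝔄 u = f` on `(0,T)`, `u(0) = 0`, in the sense of J.-L. Lions:
`u ∈ L²(0,T;V)` and `u(t) = ∫₀ᵗ (f(s) - 𝔄(s) u(s)) ds` in `V*` for almost all `t ∈ (0,T)`, that is,
`u ∈ H¹(0,T;V*)` with `u' = f - 𝔄 u` and `u(0) = 0`. -/
def IsSolution {n : ℕ} (T : ℝ) {Ω D : Set (E n)} (A : ℝ → E n → Matrix (Fin n) (Fin n) ℂ)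
    (f : ℝ → H Ω) (u : ℝ → V Ω D) : Prop :=
  MemLp u 2 (volume.restrict (Ioo 0 T)) ∧
  ∀ v : V Ω D, IntegrableOn (fun s => inner ℂ v.1.fst (f s) - form A s (u s) v) (Ioo 0 T) ∧
    ∀ᵐ t ∂(volume.restrict (Ioo 0 T)),
      inner ℂ v.1.fst (u t).1.fst = ∫ s in (0 : ℝ)..t, (inner ℂ v.1.fst (f s) - form A s (u s) v)

/-- `u ∈ H¹(0,T;H)`: `u ∈ L²(0,T;H)` has a weak derivative `g ∈ L²(0,T;H)`. -/
def MemH1 {n : ℕ} (T : ℝ) {Ω : Set (E n)} (u : ℝ → H Ω) : Prop :=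
  MemLp u 2 (volume.restrict (Ioo 0 T)) ∧
  ∃ g : ℝ → H Ω, MemLp g 2 (volume.restrict (Ioo 0 T)) ∧
    ∀ ψ : ℝ → ℝ, ContDiff ℝ (⊤ : ℕ∞) ψ → HasCompactSupport ψ → tsupport ψ ⊆ Ioo 0 T →
      ∫ t in Ioo 0 T, deriv ψ t • u t = - ∫ t in Ioo 0 T, ψ t • g t

/-- The form has maximal regularity in `H`: for all `f ∈ L²(0,T;H)` the solution `u` of
`u' + 𝔄 u = f`, `u(0) = 0`, lies in `H¹(0,T;H)`. -/
def MaximalRegularity {n : ℕ} (T : ℝ) (Ω D : Set (E n))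
    (A : ℝ → E n → Matrix (Fin n) (Fin n) ℂ) : Prop :=
  ∀ f : ℝ → H Ω, MemLp f 2 (volume.restrict (Ioo 0 T)) →
    ∀ u : ℝ → V Ω D, IsSolution T A f u → MemH1 T (fun t => (u t).1.fst)

end Pool.Agent.H681R3.MR
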