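import Pool.Agent.H681R3.MR.Defs
import Pool.Agent.H681R3.MR.Core3

/-!
# Functions on the interval `(0, π)`, seen in `ℝ¹`
-/

open MeasureTheory Set Filter Topology
open scoped Real

namespace Pool.Agent.H681R3.MR

/-- the interval `(0, π)` in `ℝ¹` -/
def Om : Set (E 1) := {x | x 0 ∈ Ioo 0 π}

noncomputable def prE : E 1 ≃ᵐ ℝ := (MeasurableEquiv.toLp 2 (Fin 1 → ℝ)).symm.trans (MeasurableEquiv.funUnique (Fin 1) ℝ)

theorem prE_apply (x : E 1) : prE x = x 0 := rfl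

theorem mp_prE : MeasurePreserving prE volume volume :=
  (volume_preserving_funUnique (Fin 1) ℝ).comp
    (EuclideanSpace.volume_preserving_symm_measurableEquiv_toLp (Fin 1))

theorem Om_eq : Om = prE ⁻¹' (Ioo 0 π) := rfl

theorem isOpen_Om : IsOpen Om := by
  have : Continuous fun x : E 1 => x 0 := by fun_prop
  exact isOpen_Ioo.preimage this

theorem mp_restrict : MeasurePreserving prE (volume.restrict Om) (volume.restrict (Ioo 0 π)) :=
  mp_prE.restrict_preimage measurableSet_Ioo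

theorem integral_Om {F : Type*} [NormedAddCommGroup F] [NormedSpace ℝ F] (g : ℝ → F) :
    ∫ x in Om, g (x 0) = ∫ s in (0 : ℝ)..π, g s := by
  rw [intervalIntegral.integral_of_le Real.pi_pos.le, integral_Ioc_eq_integral_Ioo]
  exact mp_restrict.integral_comp prE.measurableEmbedding g

theorem volume_Om : volume Om = ENNReal.ofReal π := by
  rw [Om_eq, mp_prE.measure_preimage measurableSet_Ioo.nullMeasurableSet, Real.volume_Ioo, sub_zero]

instance : IsFiniteMeasure (volume.restrict Om) := ⟨by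
  rw [Measure.restrict_apply_univ, volume_Om]; exact ENNReal.ofReal_lt_top⟩

section emb
variable {F : Type*} [NormedAddCommGroup F] [NormedSpace ℂ F]

theorem memLp_emb (g : ℝ → F) (hc : Continuous g) (hb : ∃ C, ∀ x, ‖g x‖ ≤ C) :
    MemLp (fun x : E 1 => g (x 0)) 2 (volume.restrict Om) := by
  obtain ⟨C, hC⟩ := hb
  exact MemLp.of_bound (Continuous.aestronglyMeasurable (by fun_prop)) C
    (Eventually.of_forall fun x => hC _)

/-- the function `x ↦ g (x 0)` in `L²((0,π))` -/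
noncomputable def emb (g : ℝ → F) (hc : Continuous g) (hb : ∃ C, ∀ x, ‖g x‖ ≤ C) :
    Lp F 2 (volume.restrict Om) := (memLp_emb g hc hb).toLp _

theorem coe_emb (g : ℝ → F) (hc : Continuous g) (hb : ∃ C, ∀ x, ‖g x‖ ≤ C) :
    emb g hc hb =ᵐ[volume.restrict Om] fun x => g (x 0) := MemLp.coeFn_toLp _

/-- the constant in the norm bound -/
noncomputable def cOm : ℝ := (measureUnivNNReal (volume.restrict Om) : ℝ) ^ (2 : ENNReal).toReal⁻¹

theorem cOm_nonneg : 0 ≤ cOm := by unfold cOm; positivity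

theorem norm_emb_sub_le (g g' : ℝ → F) (hc : Continuous g) (hb : ∃ C, ∀ x, ‖g x‖ ≤ C)
    (hc' : Continuous g') (hb' : ∃ C, ∀ x, ‖g' x‖ ≤ C) (c : ℝ) (hc0 : 0 ≤ c)
    (h : ∀ x, ‖g x - g' x‖ ≤ c) : ‖emb g hc hb - emb g' hc' hb'‖ ≤ cOm * c := by
  refine Lp.norm_le_of_ae_bound hc0 ?_
  filter_upwards [coe_emb g hc hb, coe_emb g' hc' hb', Lp.coeFn_sub (emb g hc hb) (emb g' hc' hb')]
    with x h1 h2 h3
  rw [h3, Pi.sub_apply, h1, h2]
  exact h _

theorem continuous_emb (G : ℝ → ℝ → F) (hc : ∀ t, Continuous (G t)) (hb : ∀ t, ∃ C, ∀ x, ‖G t x‖ ≤ C)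
    (ω : ℝ → ℝ → ℝ) (hω0 : ∀ s t, 0 ≤ ω s t) (hω : ∀ t, Tendsto (fun s => ω s t) (𝓝 t) (𝓝 0))
    (h : ∀ s t x, ‖G s x - G t x‖ ≤ ω s t) :
    Continuous (fun t => emb (G t) (hc t) (hb t)) := by
  rw [continuous_iff_continuousAt]
  intro t
  rw [ContinuousAt, tendsto_iff_norm_sub_tendsto_zero]
  refine squeeze_zero (fun s => norm_nonneg _)
    (fun s => norm_emb_sub_le _ _ _ _ _ _ (ω s t) (hω0 s t) (h s t)) ?_
  simpa using (hω t).const_mul cOm

end emb

theorem inner_emb (v : H Om) (g : ℝ → ℂ) (hc : Continuous g) (hb : ∃ C, ∀ x, ‖g x‖ ≤ C) :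
    inner ℂ v (emb g hc hb) = ∫ x in Om, g (x 0) * (starRingEnd ℂ) (v x) := by
  rw [L2.inner_def]
  refine integral_congr_ae ?_
  filter_upwards [coe_emb g hc hb] with x h1
  rw [h1]
  rfl

/-- the vector valued function `(g)` -/
noncomputable def vec (g : ℝ → ℂ) (x : ℝ) : Cn 1 := WithLp.toLp 2 (fun _ => g x)

theorem norm_vec (g : ℝ → ℂ) (x : ℝ) : ‖vec g x‖ = ‖g x‖ := by
  rw [EuclideanSpace.norm_eq]
  simp [vec]

theorem vec_cont (g : ℝ → ℂ) (hg : Continuous g) : Continuous (vec g) := by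
  unfold vec; fun_prop

theorem inner_emb_vec (v : Hn Om) (g : ℝ → ℂ) (hc : Continuous (vec g)) (hb : ∃ C, ∀ x, ‖vec g x‖ ≤ C) :
    inner ℂ v (emb (vec g) hc hb) = ∫ x in Om, g (x 0) * (starRingEnd ℂ) (v x 0) := by
  rw [L2.inner_def]
  refine integral_congr_ae ?_
  filter_upwards [coe_emb (vec g) hc hb] with x h1
  rw [h1, PiLp.inner_apply]
  simp [vec]

end Pool.Agent.H681R3.MR
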