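import Pool.Agent.H681R3.MR.NonReg

/-!
# The solution is not in `H¹(0,T;H)`, conclusion
-/

open MeasureTheory Set Filter Topology
open scoped Real

namespace Pool.Agent.H681R3.MR

noncomputable def yK (k : ℕ) (t : ℝ) : ℝ := (π / 4) * (t * ((lam k)⁻¹ ^ 2 * Real.sin (lam k ^ 2 * t)))
noncomputable def yK' (k : ℕ) (t : ℝ) : ℝ :=
  (π / 4) * ((lam k)⁻¹ ^ 2 * Real.sin (lam k ^ 2 * t) + t * Real.cos (lam k ^ 2 * t))

theorem hasDerivAt_yK (k : ℕ) (t : ℝ) : HasDerivAt (yK k) (yK' k t) t := by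
  have h : HasDerivAt (fun t => Real.sin (lam k ^ 2 * t)) (Real.cos (lam k ^ 2 * t) * (lam k ^ 2 * 1)) t :=
    ((hasDerivAt_id t).const_mul (lam k ^ 2)).sin
  have h2 := ((hasDerivAt_id t).mul (h.const_mul ((lam k)⁻¹ ^ 2))).const_mul (π / 4)
  refine hd_congr h2 (fun y => rfl) ?_
  have h3 := (lam_pos k).ne'
  unfold yK'
  simp only [id]
  field_simp

theorem yK'_cont (k : ℕ) : Continuous (yK' k) := by unfold yK'; fun_prop
theorem yK_cont (k : ℕ) : Continuous (yK k) := by unfold yK; fun_prop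

theorem zero_of_tsupport {T : ℝ} {ψ : ℝ → ℝ} (h : tsupport ψ ⊆ Ioo 0 T) {t : ℝ} (ht : t ∉ Ioo 0 T) :
    ψ t = 0 := image_eq_zero_of_notMem_tsupport fun h2 => ht (h h2)

theorem parts (k : ℕ) (T : ℝ) (hT : 0 < T) (ψ : ℝ → ℝ) (hψ : ContDiff ℝ (⊤ : ℕ∞) ψ)
    (hs : tsupport ψ ⊆ Ioo 0 T) :
    ∫ t in Ioo 0 T, deriv ψ t * yK k t = - ∫ t in Ioo 0 T, ψ t * yK' k t := by
  have hd : Continuous (deriv ψ) := hψ.continuous_deriv (by simp)
  have h := intervalIntegral.integral_deriv_mul_eq_sub (a := 0) (b := T)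
    (fun x _ => ((hψ.differentiable (by simp)) x).hasDerivAt) (fun x _ => hasDerivAt_yK k x)
    (hd.intervalIntegrable _ _) ((yK'_cont k).intervalIntegrable _ _)
  rw [zero_of_tsupport hs (t := T) (by simp), zero_of_tsupport hs (t := 0) (by simp)] at h
  have hyc := yK_cont k
  have hyc' := yK'_cont k
  have hψc := hψ.continuous
  rw [intervalIntegral.integral_add (Continuous.intervalIntegrable (by fun_prop) _ _)
    (Continuous.intervalIntegrable (by fun_prop) _ _), intervalIntegral.integral_of_le hT.le,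
    intervalIntegral.integral_of_le hT.le, integral_Ioc_eq_integral_Ioo,
    integral_Ioc_eq_integral_Ioo] at h
  linarith

theorem not_memH1 (T : ℝ) (hT : 0 < T) : ¬ MemH1 T (fun t => (uV t).1.fst) := by
  rintro ⟨-, g, hg, hw⟩
  have hgi : ∀ k, IntegrableOn (fun t => inner ℂ (eK k) (g t)) (Ioo 0 T) := fun k =>
    (hg.integrable (by norm_num)).const_inner (eK k)
  have hae : ∀ k, ∀ᵐ t : ℝ, t ∈ Ioo 0 T → inner ℂ (eK k) (g t) - ((yK' k t : ℝ) : ℂ) = 0 := by
    intro k
    have hyi : IntegrableOn (fun t => ((yK' k t : ℝ) : ℂ)) (Ioo 0 T) := by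
      have := yK'_cont k
      have hc : Continuous fun t => ((yK' k t : ℝ) : ℂ) := by fun_prop
      exact (hc.continuousOn.integrableOn_Icc).mono_set Ioo_subset_Icc_self
    refine isOpen_Ioo.ae_eq_zero_of_integral_contDiff_smul_eq_zero
      ((hgi k).sub hyi).locallyIntegrableOn ?_
    intro ψ hψ hψc hs
    have hψcont := hψ.continuous
    have hd : Continuous (deriv ψ) := hψ.continuous_deriv (by simp)
    rw [← setIntegral_eq_integral_of_forall_compl_eq_zero (s := Ioo 0 T)
      (fun t ht => by rw [zero_of_tsupport hs ht, zero_smul])]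
    have h1 := hw ψ hψ hψc hs
    have h2 := congrArg (fun z => inner ℂ (eK k) z) h1
    simp only [inner_neg_right] at h2
    have hb : ∃ C, ∀ t, ‖ψ t‖ ≤ C := hψc.exists_bound_of_continuous hψcont
    obtain ⟨C, hC⟩ := hb
    have hgψ : Integrable (fun t => ψ t • g t) (volume.restrict (Ioo 0 T)) :=
      (hg.integrable (by norm_num)).bdd_smul C hψcont.aestronglyMeasurable
        (Eventually.of_forall hC)
    have huψ : Integrable (fun t => deriv ψ t • (uV t).1.fst) (volume.restrict (Ioo 0 T)) := by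
      have h3 : Continuous fun t => deriv ψ t • uE t := hd.smul uE_cont
      exact (h3.continuousOn.integrableOn_Icc).mono_set Ioo_subset_Icc_self
    rw [← integral_inner huψ, ← integral_inner hgψ] at h2
    have e1 : ∀ t, inner ℂ (eK k) (deriv ψ t • (uV t).1.fst) = ((deriv ψ t * yK k t : ℝ) : ℂ) := by
      intro t
      have e3 : (uV t).1.fst = uE t := rfl
      rw [e3, inner_smul_right_eq_smul, inner_eK_uE]
      unfold yK
      rw [Complex.real_smul, ← Complex.ofReal_mul]
    have e2 : ∀ t, inner ℂ (eK k) (ψ t • g t) = ψ t • inner ℂ (eK k) (g t) := by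
      intro t
      rw [inner_smul_right_eq_smul]
    simp_rw [e1, e2] at h2
    rw [integral_complex_ofReal, parts k T hT ψ hψ hs] at h2
    simp_rw [smul_sub]
    rw [integral_sub]
    · push_cast at h2
      rw [neg_inj] at h2
      rw [← h2, ← integral_complex_ofReal, sub_eq_zero]
      congr 1
      ext t
      rw [Complex.real_smul]; push_cast; rfl
    · have h5 : Integrable (fun t => ψ t • inner ℂ (eK k) (g t)) (volume.restrict (Ioo 0 T)) :=
        hgψ.const_inner (eK k) |>.congr (Eventually.of_forall fun t => e2 t)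
      exact h5
    · have h5 : Integrable (fun t => ψ t • ((yK' k t : ℝ) : ℂ)) (volume.restrict (Ioo 0 T)) := by
        have := yK'_cont k
        have hc : Continuous fun t => ψ t • ((yK' k t : ℝ) : ℂ) := by fun_prop
        exact (hc.continuousOn.integrableOn_Icc).mono_set Ioo_subset_Icc_self
      exact h5
  have hall : ∀ᵐ t : ℝ, ∀ k, t ∈ Ioo 0 T → inner ℂ (eK k) (g t) - ((yK' k t : ℝ) : ℂ) = 0 :=
    ae_all_iff.2 hae
  obtain ⟨t, ht, htk⟩ : ∃ t ∈ Ioo 0 T, ∀ k, inner ℂ (eK k) (g t) - ((yK' k t : ℝ) : ℂ) = 0 := by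
    by_contra hcon
    push Not at hcon
    have h0 : volume (Ioo 0 T) = 0 := by
      refine measure_mono_null ?_ hall
      intro t ht
      obtain ⟨k, hk⟩ := hcon t ht
      simp only [mem_compl_iff, mem_ofPred_eq, not_forall]
      exact ⟨k, ht, hk⟩
    rw [Real.volume_Ioo, sub_zero, ENNReal.ofReal_eq_zero] at h0
    linarith
  have h1 := eK_tendsto_zero (g t)
  have h2 : Tendsto (fun k => yK' k t) atTop (𝓝 0) := by
    rw [tendsto_zero_iff_norm_tendsto_zero]
    refine h1.congr fun k => ?_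
    rw [sub_eq_zero.1 (htk k), Complex.norm_real]
  have hpi := Real.pi_pos
  have h3 : Tendsto (fun k => (lam k)⁻¹ ^ 2 * Real.sin (lam k ^ 2 * t)) atTop (𝓝 0) := by
    refine squeeze_zero_norm (a := fun k => (lam k)⁻¹ ^ 2) (fun k => ?_)
      hasSum_lam_inv_sq.summable.tendsto_atTop_zero
    rw [Real.norm_eq_abs, abs_mul, abs_of_nonneg (by positivity : (0:ℝ) ≤ (lam k)⁻¹ ^ 2)]
    exact mul_le_of_le_one_right (by positivity) (Real.abs_sin_le_one _)
  have h4 : Tendsto (fun k => Real.cos (lam k ^ 2 * t)) atTop (𝓝 0) := by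
    have h5 := ((h2.const_mul (4 / π)).sub h3).const_mul t⁻¹
    simp only [mul_zero, sub_zero] at h5
    refine h5.congr fun k => ?_
    unfold yK'
    have := ht.1.ne'
    field_simp
    ring
  have h6 : Tendsto (fun k => Real.cos (lam (k + 1) ^ 2 * t)) atTop (𝓝 1) := by
    have h7 : ∀ k, Real.cos (lam (k + 1) ^ 2 * t) =
        8 * Real.cos (lam k ^ 2 * t) ^ 4 - 8 * Real.cos (lam k ^ 2 * t) ^ 2 + 1 := by
      intro k
      have e : lam (k + 1) ^ 2 * t = 2 * (2 * (lam k ^ 2 * t)) := by unfold lam; ring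
      rw [e, Real.cos_two_mul, Real.cos_two_mul]
      ring
    simp_rw [h7]
    have h8 := ((h4.pow 4).const_mul 8).sub ((h4.pow 2).const_mul 8) |>.add_const 1
    simpa using h8
  have h9 := tendsto_nhds_unique h6 (h4.comp (tendsto_add_atTop_nat 1))
  norm_num at h9

theorem main (T : ℝ) (hT : 0 < T) : IsOpen Om ∧ IsElliptic T Om Aco ∧ HalfHolder T Om ∅ Aco ∧
    ¬ MaximalRegularity T Om ∅ Aco :=
  ⟨isOpen_Om, Aco_elliptic T, Aco_holder T, fun h =>
    not_memH1 T hT (h fE (memLp_of_cont fE fE_cont T) uV (uV_solution T))⟩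

end Pool.Agent.H681R3.MR
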