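import Pool.Agent.H681R3.MR.Sol2

/-!
# The solution is not in `H¹(0,T;H)`
-/

open MeasureTheory Set Filter Topology
open scoped Real

namespace Pool.Agent.H681R3.MR

theorem int_cos (m : ℤ) (hm : m ≠ 0) : ∫ x in (0 : ℝ)..π, Real.cos (m * x) = 0 := by
  have hm' : (m : ℝ) ≠ 0 := by exact_mod_cast hm
  rw [intervalIntegral.integral_comp_mul_left (fun x => Real.cos x) hm', integral_cos]
  simp [Real.sin_int_mul_pi]

/-- the frequencies as integers -/
def lamZ (k : ℕ) : ℤ := 4 * 2 ^ k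

theorem lam_cast (k : ℕ) : lam k = (lamZ k : ℝ) := by unfold lam lamZ; push_cast; rfl

theorem lamZ_ge (k : ℕ) : 4 ≤ lamZ k := by
  unfold lamZ
  have : (1 : ℤ) ≤ 2 ^ k := one_le_pow₀ (by norm_num)
  linarith

theorem lamZ_inj {j k : ℕ} (h : lamZ j - lamZ k = 0) : j = k := by
  unfold lamZ at h
  have h2 : (2 : ℤ) ^ j = 2 ^ k := by linarith
  exact Int.pow_right_injective (by norm_num) h2

theorem ci (m : ℤ) : IntervalIntegrable (fun x => Real.cos (m * x)) volume 0 π :=
  Continuous.intervalIntegrable (by fun_prop) _ _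

theorem int_cc (j k : ℕ) : ∫ x in (0 : ℝ)..π, Real.cos (lam j * x) * Real.cos (lam k * x) =
    if j = k then π / 2 else 0 := by
  have e : ∀ x : ℝ, Real.cos (lam j * x) * Real.cos (lam k * x) =
      (1 / 2) * (Real.cos ((lamZ j - lamZ k : ℤ) * x) + Real.cos ((lamZ j + lamZ k : ℤ) * x)) := by
    intro x
    rw [lam_cast, lam_cast]
    push_cast
    rw [sub_mul, add_mul, Real.cos_sub, Real.cos_add]
    ring
  simp_rw [e]
  rw [intervalIntegral.integral_const_mul, intervalIntegral.integral_add (ci _) (ci _),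
    int_cos (lamZ j + lamZ k) (by have := lamZ_ge j; have := lamZ_ge k; omega)]
  split_ifs with h
  · subst h; simp; ring
  · rw [int_cos _ (fun h2 => h (lamZ_inj h2))]; simp

theorem int_ccs (j k : ℕ) :
    ∫ x in (0 : ℝ)..π, Real.sin x ^ 2 * Real.cos (lam j * x) * Real.cos (lam k * x) =
    if j = k then π / 4 else 0 := by
  have e : ∀ x : ℝ, Real.sin x ^ 2 * Real.cos (lam j * x) * Real.cos (lam k * x) =
      (1 / 2) * (Real.cos (lam j * x) * Real.cos (lam k * x)) -
      (1 / 8) * ((Real.cos ((lamZ j - lamZ k - 2 : ℤ) * x) + Real.cos ((lamZ j - lamZ k + 2 : ℤ) * x)) +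
       (Real.cos ((lamZ j + lamZ k - 2 : ℤ) * x) + Real.cos ((lamZ j + lamZ k + 2 : ℤ) * x))) := by
    intro x
    have h1 : Real.sin x ^ 2 = 1 / 2 - Real.cos (2 * x) / 2 := Real.sin_sq_eq_half_sub x
    have h2 : Real.cos ((lamZ j - lamZ k - 2 : ℤ) * x) + Real.cos ((lamZ j - lamZ k + 2 : ℤ) * x) =
        2 * Real.cos ((lam j - lam k) * x) * Real.cos (2 * x) := by
      rw [lam_cast, lam_cast]; push_cast
      rw [show ((lamZ j : ℝ) - lamZ k - 2) * x = ((lamZ j : ℝ) - lamZ k) * x - 2 * x by ring,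
        show ((lamZ j : ℝ) - lamZ k + 2) * x = ((lamZ j : ℝ) - lamZ k) * x + 2 * x by ring,
        Real.cos_sub, Real.cos_add]
      ring
    have h3 : Real.cos ((lamZ j + lamZ k - 2 : ℤ) * x) + Real.cos ((lamZ j + lamZ k + 2 : ℤ) * x) =
        2 * Real.cos ((lam j + lam k) * x) * Real.cos (2 * x) := by
      rw [lam_cast, lam_cast]; push_cast
      rw [show ((lamZ j : ℝ) + lamZ k - 2) * x = ((lamZ j : ℝ) + lamZ k) * x - 2 * x by ring,
        show ((lamZ j : ℝ) + lamZ k + 2) * x = ((lamZ j : ℝ) + lamZ k) * x + 2 * x by ring,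
        Real.cos_sub, Real.cos_add]
      ring
    rw [h2, h3, h1, sub_mul (lam j), add_mul (lam j), Real.cos_sub, Real.cos_add]
    ring
  have hjk : ∀ m : ℤ, m = 2 ∨ m = -2 → lamZ j - lamZ k + m ≠ 0 := by
    intro m hm
    unfold lamZ
    omega
  simp_rw [e]
  rw [intervalIntegral.integral_sub, intervalIntegral.integral_const_mul, intervalIntegral.integral_const_mul,
    int_cc, intervalIntegral.integral_add ((ci _).add (ci _)) ((ci _).add (ci _)),
    intervalIntegral.integral_add (ci _) (ci _), intervalIntegral.integral_add (ci _) (ci _),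
    int_cos (lamZ j + lamZ k - 2) (by have := lamZ_ge j; have := lamZ_ge k; omega),
    int_cos (lamZ j + lamZ k + 2) (by have := lamZ_ge j; have := lamZ_ge k; omega),
    int_cos (lamZ j - lamZ k - 2) (hjk (-2) (Or.inr rfl)), int_cos (lamZ j - lamZ k + 2) (hjk 2 (Or.inl rfl))]
  · split_ifs <;> ring
  · exact Continuous.intervalIntegrable (by fun_prop) _ _
  · exact Continuous.intervalIntegrable (by fun_prop) _ _

theorem int_cos_cos (k : ℕ) : ∫ x in (0 : ℝ)..π, Real.cos x * Real.cos (lam k * x) = 0 := by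
  have e : ∀ x : ℝ, Real.cos x * Real.cos (lam k * x) =
      (1 / 2) * (Real.cos ((lamZ k - 1 : ℤ) * x) + Real.cos ((lamZ k + 1 : ℤ) * x)) := by
    intro x
    rw [lam_cast]
    push_cast
    rw [sub_mul, add_mul, Real.cos_sub, Real.cos_add, one_mul]
    ring
  simp_rw [e]
  rw [intervalIntegral.integral_const_mul, intervalIntegral.integral_add (ci _) (ci _),
    int_cos (lamZ k - 1) (by have := lamZ_ge k; omega), int_cos (lamZ k + 1) (by have := lamZ_ge k; omega)]
  simp

theorem int_uK (K k : ℕ) (hk : k < K) (t : ℝ) :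
    ∫ x in (0 : ℝ)..π, uK K (t, x) * Real.cos (lam k * x) =
      (π / 4) * (t * ((lam k)⁻¹ ^ 2 * Real.sin (lam k ^ 2 * t))) := by
  have e : ∀ x : ℝ, uK K (t, x) * Real.cos (lam k * x) =
      (-t) * (Real.cos x * Real.cos (lam k * x)) +
      ∑ j ∈ Finset.range K, (t * ((lam j)⁻¹ ^ 2 * Real.sin (lam j ^ 2 * t))) *
        (Real.sin x ^ 2 * Real.cos (lam j * x) * Real.cos (lam k * x)) := by
    intro x
    unfold uK sK sT
    simp only
    have h : ∑ j ∈ Finset.range K, (t * ((lam j)⁻¹ ^ 2 * Real.sin (lam j ^ 2 * t))) *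
        (Real.sin x ^ 2 * Real.cos (lam j * x) * Real.cos (lam k * x)) =
        t * Real.sin x ^ 2 * Real.cos (lam k * x) * ∑ j ∈ Finset.range K, (lam j)⁻¹ ^ 2 * (Real.sin (lam j ^ 2 * t) * Real.cos (lam j * x)) := by
      rw [Finset.mul_sum]
      exact Finset.sum_congr rfl fun j _ => by ring
    rw [h]
    ring
  simp_rw [e]
  rw [intervalIntegral.integral_add, intervalIntegral.integral_const_mul, int_cos_cos,
    intervalIntegral.integral_finset_sum]
  · simp_rw [intervalIntegral.integral_const_mul, int_ccs]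
    simp only [mul_ite, mul_zero, Finset.sum_ite_eq', Finset.mem_range, hk, if_true]
    ring
  · intro j _
    exact Continuous.intervalIntegrable (by fun_prop) _ _
  · exact Continuous.intervalIntegrable (by fun_prop) _ _
  · refine Continuous.intervalIntegrable ?_ _ _
    exact continuous_finsetSum _ fun j _ => by fun_prop

theorem int_uS (k : ℕ) (t : ℝ) :
    ∫ x in (0 : ℝ)..π, (uS (t, x) : ℂ) * ((Real.cos (lam k * x) : ℝ) : ℂ) =
      (((π / 4) * (t * ((lam k)⁻¹ ^ 2 * Real.sin (lam k ^ 2 * t))) : ℝ) : ℂ) := by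
  have h1 := tendsto_int_x uK uS (fun x => ((Real.cos (lam k * x) : ℝ) : ℂ)) (by fun_prop) uK_cont
    uK_tendsto (2 * |t|) t (fun K x => uK_bd K _)
  refine tendsto_nhds_unique h1 (tendsto_const_nhds.congr' ?_)
  filter_upwards [eventually_gt_atTop k] with K hK
  rw [← int_uK K k hK t, ← intervalIntegral.integral_ofReal]
  push_cast
  rfl

/-! ## The test functions -/

/-- `cos (λ_k x)` as an element of `H` -/
noncomputable def eK (k : ℕ) : H Om :=
  emb (fun x => ((Real.cos (lam k * x) : ℝ) : ℂ)) (by fun_prop)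
    ⟨1, fun x => by rw [Complex.norm_real]; exact Real.abs_cos_le_one _⟩

theorem coe_eK (k : ℕ) : eK k =ᵐ[volume.restrict Om] fun x => ((Real.cos (lam k * x 0) : ℝ) : ℂ) :=
  coe_emb _ _ _

theorem inner_eK (k : ℕ) (g : ℝ → ℂ) (hc : Continuous g) (hb : ∃ C, ∀ x, ‖g x‖ ≤ C) :
    inner ℂ (eK k) (emb g hc hb) = ∫ x in (0 : ℝ)..π, g x * ((Real.cos (lam k * x) : ℝ) : ℂ) := by
  rw [inner_emb, ← integral_Om (fun x => g x * ((Real.cos (lam k * x) : ℝ) : ℂ))]
  refine integral_congr_ae ?_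
  filter_upwards [coe_eK k] with x h1
  rw [h1, Complex.conj_ofReal]

theorem inner_eK_eK (j k : ℕ) : inner ℂ (eK j) (eK k) = if j = k then ((π / 2 : ℝ) : ℂ) else 0 := by
  unfold eK
  rw [show emb (fun x => ((Real.cos (lam j * x) : ℝ) : ℂ)) _ _ = eK j from rfl, inner_eK]
  have h := int_cc k j
  have h2 : (∫ x in (0 : ℝ)..π, ((Real.cos (lam k * x) : ℝ) : ℂ) * ((Real.cos (lam j * x) : ℝ) : ℂ)) =
    ((∫ x in (0 : ℝ)..π, Real.cos (lam k * x) * Real.cos (lam j * x) : ℝ) : ℂ) := by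
    rw [← intervalIntegral.integral_ofReal]; push_cast; rfl
  rw [h2, h]
  by_cases hjk : j = k
  · subst hjk; simp
  · rw [if_neg hjk, if_neg (fun h => hjk h.symm)]; simp

theorem inner_eK_uE (k : ℕ) (t : ℝ) : inner ℂ (eK k) (uE t) =
    (((π / 4) * (t * ((lam k)⁻¹ ^ 2 * Real.sin (lam k ^ 2 * t))) : ℝ) : ℂ) := by
  unfold uE eH
  rw [inner_eK]
  exact int_uS k t

/-- normalised -/
noncomputable def bK (k : ℕ) : H Om := ((√(π / 2))⁻¹ : ℂ) • eK k

theorem bK_orthonormal : Orthonormal ℂ bK := by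
  have hpos : 0 < √(π / 2) := Real.sqrt_pos.2 (by positivity)
  rw [orthonormal_iff_ite]
  intro j k
  unfold bK
  rw [inner_smul_left, inner_smul_right, inner_eK_eK]
  by_cases h : j = k
  · rw [if_pos h, if_pos h]
    have e : (starRingEnd ℂ) ((√(π / 2))⁻¹ : ℂ) = ((√(π / 2))⁻¹ : ℂ) := by
      rw [← Complex.ofReal_inv, Complex.conj_ofReal]
    rw [e, ← Complex.ofReal_inv, ← Complex.ofReal_mul, ← Complex.ofReal_mul]
    have h3 : (√(π / 2))⁻¹ * ((√(π / 2))⁻¹ * (π / 2)) = 1 := by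
      have h4 : √(π / 2) * √(π / 2) = π / 2 := Real.mul_self_sqrt (by positivity)
      field_simp
      nlinarith
    rw [h3]; simp
  · rw [if_neg h, if_neg h]; simp

theorem eK_tendsto_zero (g : H Om) : Tendsto (fun k => ‖inner ℂ (eK k) g‖) atTop (𝓝 0) := by
  have h1 := bK_orthonormal.inner_products_summable (x := g)
  have h2 := h1.tendsto_atTop_zero
  have hpos : 0 < √(π / 2) := Real.sqrt_pos.2 (by positivity)
  have h3 : ∀ k, ‖inner ℂ (eK k) g‖ = √(π / 2) * ‖inner ℂ (bK k) g‖ := by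
    intro k
    unfold bK
    rw [inner_smul_left, norm_mul, RCLike.norm_conj, ← Complex.ofReal_inv, Complex.norm_real,
      Real.norm_of_nonneg (by positivity), ← mul_assoc, mul_inv_cancel₀ hpos.ne', one_mul]
  have h4 : Tendsto (fun k => ‖inner ℂ (bK k) g‖) atTop (𝓝 0) := by
    have h5 := (Real.continuous_sqrt.tendsto 0).comp h2
    rw [Real.sqrt_zero] at h5
    refine h5.congr fun k => ?_
    simp only [Function.comp]
    exact Real.sqrt_sq (norm_nonneg _)
  simp_rw [h3]
  simpa using h4.const_mul (√(π / 2))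

end Pool.Agent.H681R3.MR
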