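import Pool.Agent.H681R3.MR.Emb

/-!
# The solution
-/

open MeasureTheory Set Filter Topology
open scoped Real

namespace Pool.Agent.H681R3.MR

theorem uS_bd (p : ℝ × ℝ) : |uS p| ≤ 2 * |p.1| :=
  le_of_tendsto (uK_tendsto p).abs (Eventually.of_forall fun K => uK_bd K p)
theorem wS_bd (p : ℝ × ℝ) : |wS p| ≤ 4 * |p.1| :=
  le_of_tendsto (wK_tendsto p).abs (Eventually.of_forall fun K => wK_bd K p)
theorem hS_bd (p : ℝ × ℝ) : |hS p| ≤ 2 * |p.1| :=
  le_of_tendsto (hK_tendsto p).abs (Eventually.of_forall fun K => hK_bd K p)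
theorem fS_bd (p : ℝ × ℝ) : |fS p| ≤ 2 + 3 * |p.1| :=
  le_of_tendsto (fK_tendsto p).abs (Eventually.of_forall fun K => fK_bd K p)

/-- the modulus of continuity -/
noncomputable def om (s t : ℝ) : ℝ := 5 * |s - t| + (30 * |t| + 10) * √|s - t|

theorem om_nonneg (s t : ℝ) : 0 ≤ om s t := by unfold om; positivity

theorem om_tendsto (t : ℝ) : Tendsto (fun s => om s t) (𝓝 t) (𝓝 0) := by
  have h : Continuous fun s => om s t := by unfold om; fun_prop
  have h2 := h.tendsto t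
  have h3 : om t t = 0 := by unfold om; simp
  rwa [h3] at h2

theorem prod_bd {a b c d : ℝ} (h1 : |a| ≤ c) (h2 : |b| ≤ d) : |a * b| ≤ c * d := by
  rw [abs_mul]; exact mul_le_mul h1 h2 (abs_nonneg _) ((abs_nonneg _).trans h1)

theorem uS_mod (s t x : ℝ) : |uS (s, x) - uS (t, x)| ≤ om s t := by
  have e : uS (s, x) - uS (t, x) = (s - t) * (-Real.cos x + Real.sin x ^ 2 * sS (s, x)) +
      t * (Real.sin x ^ 2 * (sS (s, x) - sS (t, x))) := by unfold uS; ring
  have h0 : |-Real.cos x + Real.sin x ^ 2 * sS (s, x)| ≤ 2 := by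
    have h1 := Real.abs_cos_le_one x
    have h2 := abs_mul_le_one (sin_sq_le x) ((sS_bd (s, x)).trans (by norm_num))
    have h3 := abs_add_le (-Real.cos x) (Real.sin x ^ 2 * sS (s, x))
    rw [abs_neg] at h3
    linarith
  have h1 := prod_bd (le_refl |s - t|) h0
  have h2 := prod_bd (le_refl |t|) (abs_mul_le_of (sin_sq_le x) (sS_holder s t x))
  rw [e]
  have h3 := abs_add_le ((s - t) * (-Real.cos x + Real.sin x ^ 2 * sS (s, x)))
    (t * (Real.sin x ^ 2 * (sS (s, x) - sS (t, x))))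
  unfold om
  have := Real.sqrt_nonneg |s - t|
  nlinarith [abs_nonneg t, abs_nonneg (s - t), mul_nonneg (abs_nonneg t) this]

theorem sc_bd (x : ℝ) {c : ℝ} {a : ℝ} (ha : |a| ≤ c) : |2 * Real.sin x * Real.cos x * a| ≤ 2 * c := by
  rw [show 2 * Real.sin x * Real.cos x * a = 2 * (Real.sin x * (Real.cos x * a)) by ring,
      abs_mul, abs_two]
  have := abs_mul_le_of (Real.abs_sin_le_one x) (abs_mul_le_of (Real.abs_cos_le_one x) ha)
  linarith

theorem wS_mod (s t x : ℝ) : |wS (s, x) - wS (t, x)| ≤ om s t := by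
  have e : wS (s, x) - wS (t, x) = (s - t) * (Real.sin x + (2 * Real.sin x * Real.cos x * sS (s, x) +
        Real.sin x ^ 2 * pS (s, x))) +
      t * (2 * Real.sin x * Real.cos x * (sS (s, x) - sS (t, x)) +
        Real.sin x ^ 2 * (pS (s, x) - pS (t, x))) := by unfold wS; ring
  have h0 : |Real.sin x + (2 * Real.sin x * Real.cos x * sS (s, x) +
        Real.sin x ^ 2 * pS (s, x))| ≤ 4 := by
    have h1 := Real.abs_sin_le_one x
    have h2 := abs_mul_le_one (sin_sq_le x) ((pS_bd (s, x)).trans (by norm_num))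
    have h4 := sc_bd x (sS_bd (s, x))
    have h3 := abs_add_le (Real.sin x) (2 * Real.sin x * Real.cos x * sS (s, x) +
        Real.sin x ^ 2 * pS (s, x))
    have h5 := abs_add_le (2 * Real.sin x * Real.cos x * sS (s, x))
        (Real.sin x ^ 2 * pS (s, x))
    linarith
  have h6 : |2 * Real.sin x * Real.cos x * (sS (s, x) - sS (t, x)) +
        Real.sin x ^ 2 * (pS (s, x) - pS (t, x))| ≤ 27 * √|s - t| := by
    have h4 := sc_bd x (sS_holder s t x)
    have h5 := abs_mul_le_of (sin_sq_le x) (pS_holder s t x)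
    have h7 := abs_add_le (2 * Real.sin x * Real.cos x * (sS (s, x) - sS (t, x)))
        (Real.sin x ^ 2 * (pS (s, x) - pS (t, x)))
    linarith
  have h1 := prod_bd (le_refl |s - t|) h0
  have h2 := prod_bd (le_refl |t|) h6
  rw [e]
  have h3 := abs_add_le ((s - t) * (Real.sin x + (2 * Real.sin x * Real.cos x * sS (s, x) +
        Real.sin x ^ 2 * pS (s, x)))) (t * (2 * Real.sin x * Real.cos x * (sS (s, x) - sS (t, x)) +
        Real.sin x ^ 2 * (pS (s, x) - pS (t, x))))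
  unfold om
  have := Real.sqrt_nonneg |s - t|
  nlinarith [abs_nonneg t, abs_nonneg (s - t), mul_nonneg (abs_nonneg t) this]

theorem hS_mod (s t x : ℝ) : |hS (s, x) - hS (t, x)| ≤ om s t := by
  have e : hS (s, x) - hS (t, x) = (s - t) * (Real.sin x + Real.sin x ^ 2 * rS (s, x)) +
      t * (Real.sin x ^ 2 * (rS (s, x) - rS (t, x))) := by unfold hS; ring
  have h0 : |Real.sin x + Real.sin x ^ 2 * rS (s, x)| ≤ 2 := by
    have h1 := Real.abs_sin_le_one x
    have h2 := abs_mul_le_one (sin_sq_le x) ((rS_bd (s, x)).trans (by norm_num))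
    have h3 := abs_add_le (Real.sin x) (Real.sin x ^ 2 * rS (s, x))
    linarith
  have h1 := prod_bd (le_refl |s - t|) h0
  have h2 := prod_bd (le_refl |t|) (abs_mul_le_of (sin_sq_le x) (rS_holder s t x))
  rw [e]
  have h3 := abs_add_le ((s - t) * (Real.sin x + Real.sin x ^ 2 * rS (s, x)))
    (t * (Real.sin x ^ 2 * (rS (s, x) - rS (t, x))))
  unfold om
  have := Real.sqrt_nonneg |s - t|
  nlinarith [abs_nonneg t, abs_nonneg (s - t), mul_nonneg (abs_nonneg t) this]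

theorem fS_mod (s t x : ℝ) : |fS (s, x) - fS (t, x)| ≤ om s t := by
  have e : fS (s, x) - fS (t, x) = Real.sin x ^ 2 * (sS (s, x) - sS (t, x)) +
      ((s - t) * (-(Real.cos x + 2 * Real.sin x * Real.cos x * rS (s, x))) +
      t * (-(2 * Real.sin x * Real.cos x * (rS (s, x) - rS (t, x))))) := by unfold fS; ring
  have h0 : |-(Real.cos x + 2 * Real.sin x * Real.cos x * rS (s, x))| ≤ 3 := by
    rw [abs_neg]
    have h1 := Real.abs_cos_le_one x
    have h4 := sc_bd x (rS_bd (s, x))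
    have h3 := abs_add_le (Real.cos x) (2 * Real.sin x * Real.cos x * rS (s, x))
    linarith
  have h6 : |-(2 * Real.sin x * Real.cos x * (rS (s, x) - rS (t, x)))| ≤ 18 * √|s - t| := by
    rw [abs_neg]
    have h4 := sc_bd x (rS_holder s t x)
    linarith
  have h7 := abs_mul_le_of (sin_sq_le x) (sS_holder s t x)
  have h1 := prod_bd (le_refl |s - t|) h0
  have h2 := prod_bd (le_refl |t|) h6
  rw [e]
  have h3 := abs_add_le (Real.sin x ^ 2 * (sS (s, x) - sS (t, x)))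
      ((s - t) * (-(Real.cos x + 2 * Real.sin x * Real.cos x * rS (s, x))) +
      t * (-(2 * Real.sin x * Real.cos x * (rS (s, x) - rS (t, x)))))
  have h8 := abs_add_le ((s - t) * (-(Real.cos x + 2 * Real.sin x * Real.cos x * rS (s, x))))
      (t * (-(2 * Real.sin x * Real.cos x * (rS (s, x) - rS (t, x)))))
  unfold om
  have := Real.sqrt_nonneg |s - t|
  nlinarith [abs_nonneg t, abs_nonneg (s - t), mul_nonneg (abs_nonneg t) this]

/-! ## Embedding -/

/-- scalar embedding of a function of `(t, x)` at time `t` -/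
noncomputable def eH (a : ℝ × ℝ → ℝ) (ha : Continuous a) (hb : ∀ t, ∃ C, ∀ x, |a (t, x)| ≤ C) (t : ℝ) :
    H Om :=
  emb (fun x => ((a (t, x) : ℝ) : ℂ)) (by fun_prop)
    (by obtain ⟨C, hC⟩ := hb t; exact ⟨C, fun x => by rw [Complex.norm_real]; exact hC x⟩)

/-- vector embedding -/
noncomputable def eV (a : ℝ × ℝ → ℝ) (ha : Continuous a) (hb : ∀ t, ∃ C, ∀ x, |a (t, x)| ≤ C) (t : ℝ) :
    Hn Om :=
  emb (vec fun x => ((a (t, x) : ℝ) : ℂ)) (vec_cont _ (by fun_prop))
    (by obtain ⟨C, hC⟩ := hb t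
        exact ⟨C, fun x => by rw [norm_vec, Complex.norm_real]; exact hC x⟩)

theorem eH_cont (a : ℝ × ℝ → ℝ) (ha : Continuous a) (hb : ∀ t, ∃ C, ∀ x, |a (t, x)| ≤ C)
    (hm : ∀ s t x, |a (s, x) - a (t, x)| ≤ om s t) : Continuous (eH a ha hb) := by
  refine continuous_emb _ _ _ om om_nonneg om_tendsto fun s t x => ?_
  rw [← Complex.ofReal_sub, Complex.norm_real]
  exact hm s t x

theorem eV_cont (a : ℝ × ℝ → ℝ) (ha : Continuous a) (hb : ∀ t, ∃ C, ∀ x, |a (t, x)| ≤ C)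
    (hm : ∀ s t x, |a (s, x) - a (t, x)| ≤ om s t) : Continuous (eV a ha hb) := by
  refine continuous_emb _ _ _ om om_nonneg om_tendsto fun s t x => ?_
  have e : vec (fun x => ((a (s, x) : ℝ) : ℂ)) x - vec (fun x => ((a (t, x) : ℝ) : ℂ)) x =
    vec (fun x => ((a (s, x) - a (t, x) : ℝ) : ℂ)) x := by
    ext i; simp [vec]
  rw [e, norm_vec, Complex.norm_real]
  exact hm s t x

noncomputable def uE (t : ℝ) : H Om := eH uS uS_cont (fun t => ⟨2 * |t|, fun x => uS_bd (t, x)⟩) t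
noncomputable def fE (t : ℝ) : H Om := eH fS fS_cont (fun t => ⟨2 + 3 * |t|, fun x => fS_bd (t, x)⟩) t
noncomputable def wE (t : ℝ) : Hn Om := eV wS wS_cont (fun t => ⟨4 * |t|, fun x => wS_bd (t, x)⟩) t
noncomputable def hE (t : ℝ) : Hn Om := eV hS hS_cont (fun t => ⟨2 * |t|, fun x => hS_bd (t, x)⟩) t
noncomputable def uKE (K : ℕ) (t : ℝ) : H Om :=
  eH (uK K) (uK_cont K) (fun t => ⟨2 * |t|, fun x => uK_bd K (t, x)⟩) t
noncomputable def wKE (K : ℕ) (t : ℝ) : Hn Om :=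
  eV (wK K) (wK_cont K) (fun t => ⟨4 * |t|, fun x => wK_bd K (t, x)⟩) t

theorem uE_cont : Continuous uE :=
  eH_cont uS uS_cont (fun t => ⟨2 * |t|, fun x => uS_bd (t, x)⟩) uS_mod
theorem fE_cont : Continuous fE :=
  eH_cont fS fS_cont (fun t => ⟨2 + 3 * |t|, fun x => fS_bd (t, x)⟩) fS_mod
theorem wE_cont : Continuous wE :=
  eV_cont wS wS_cont (fun t => ⟨4 * |t|, fun x => wS_bd (t, x)⟩) wS_mod
theorem hE_cont : Continuous hE :=
  eV_cont hS hS_cont (fun t => ⟨2 * |t|, fun x => hS_bd (t, x)⟩) hS_mod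

/-- the pair -/
noncomputable def pairE (t : ℝ) : HxHn Om := WithLp.toLp 2 (uE t, wE t)
noncomputable def pairK (K : ℕ) (t : ℝ) : HxHn Om := WithLp.toLp 2 (uKE K t, wKE K t)

theorem pairE_cont : Continuous pairE := by
  unfold pairE
  have h1 := uE_cont
  have h2 := wE_cont
  exact (WithLp.prod_continuous_toLp 2 _ _).comp (h1.prodMk h2)

/-! ## Membership in `V` -/

theorem contDiff_uK (K : ℕ) (t : ℝ) : ContDiff ℝ (⊤ : ℕ∞) (fun x : ℝ => uK K (t, x)) := by
  unfold uK sK sT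
  have h : ContDiff ℝ (⊤ : ℕ∞) (fun x : ℝ => ∑ k ∈ Finset.range K,
      (lam k)⁻¹ ^ 2 * (Real.sin (lam k ^ 2 * t) * Real.cos (lam k * x))) :=
    ContDiff.sum fun k _ => by fun_prop
  fun_prop

/-- cut-off -/
noncomputable def bump : ContDiffBump (0 : E 1) := ⟨4, 5, by norm_num, by norm_num⟩

theorem norm_E1 (x : E 1) : ‖x‖ = |x 0| := by
  rw [EuclideanSpace.norm_eq]; simp [Real.sqrt_sq_eq_abs]

theorem Om_subset : Om ⊆ Metric.ball (0 : E 1) 4 := by
  intro x hx
  have h1 : 0 < x 0 := hx.1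
  have h2 : x 0 < π := hx.2
  rw [mem_ball_zero_iff, norm_E1, abs_of_pos h1]
  linarith [Real.pi_lt_four]

/-- the test function -/
noncomputable def phiK (K : ℕ) (t : ℝ) (x : E 1) : ℂ := ((bump x * uK K (t, x 0) : ℝ) : ℂ)

theorem phiK_contDiff (K : ℕ) (t : ℝ) : ContDiff ℝ (⊤ : ℕ∞) (phiK K t) := by
  unfold phiK
  have h1 : ContDiff ℝ (⊤ : ℕ∞) (fun x : E 1 => bump x) := bump.contDiff
  have h3 : ContDiff ℝ (⊤ : ℕ∞) (fun x : E 1 => x 0) := by fun_prop
  have h2 : ContDiff ℝ (⊤ : ℕ∞) (fun x : E 1 => uK K (t, x 0)) := (contDiff_uK K t).comp h3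
  exact Complex.ofRealCLM.contDiff.comp (h1.mul h2)

theorem phiK_compact (K : ℕ) (t : ℝ) : HasCompactSupport (phiK K t) := by
  refine bump.hasCompactSupport.mono' ?_
  refine subset_trans ?_ subset_closure
  intro x hx
  rw [Function.mem_support] at hx ⊢
  intro h
  apply hx
  unfold phiK
  rw [h]; simp

theorem phiK_eq (K : ℕ) (t : ℝ) (x : E 1) (hx : x ∈ Metric.ball (0 : E 1) 4) :
    phiK K t x = ((uK K (t, x 0) : ℝ) : ℂ) := by
  unfold phiK
  rw [bump.one_of_mem_closedBall (Metric.ball_subset_closedBall hx), one_mul]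

theorem grad_phiK (K : ℕ) (t : ℝ) (x : E 1) (hx : x ∈ Metric.ball (0 : E 1) 4) :
    grad (phiK K t) x = vec (fun y => ((wK K (t, y) : ℝ) : ℂ)) (x 0) := by
  have h1 : phiK K t =ᶠ[𝓝 x] fun x => ((uK K (t, x 0) : ℝ) : ℂ) := by
    filter_upwards [Metric.isOpen_ball.mem_nhds hx] with y hy
    exact phiK_eq K t y hy
  have h2 : HasFDerivAt (fun x : E 1 => x 0) (EuclideanSpace.proj (0 : Fin 1) : E 1 →L[ℝ] ℝ) x :=
    (EuclideanSpace.proj (0 : Fin 1) : E 1 →L[ℝ] ℝ).hasFDerivAt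
  have h3 := ((hasDerivAt_uK_x K t (x 0)).ofReal_comp.hasFDerivAt).comp x h2
  unfold grad vec
  congr 1
  ext i
  rw [h1.fderiv_eq]
  have h4 : fderiv ℝ (fun x : E 1 => ((uK K (t, x 0) : ℝ) : ℂ)) x = _ := h3.fderiv
  rw [h4]
  fin_cases i
  simp

theorem pairK_mem (K : ℕ) (t : ℝ) : pairK K t ∈ testPairs Om ∅ := by
  refine ⟨phiK K t, phiK_contDiff K t, phiK_compact K t, disjoint_empty _, ?_, ?_⟩
  · have h := coe_emb (fun x => ((uK K (t, x) : ℝ) : ℂ)) (by have := uK_cont K; fun_prop)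
      ⟨2 * |t|, fun x => by rw [Complex.norm_real]; exact uK_bd K (t, x)⟩
    filter_upwards [h, ae_restrict_mem isOpen_Om.measurableSet] with x h1 h2
    rw [phiK_eq K t x (Om_subset h2)]
    exact h1
  · have h := coe_emb (vec fun x => ((wK K (t, x) : ℝ) : ℂ)) (vec_cont _ (by have := wK_cont K; fun_prop))
      ⟨4 * |t|, fun x => by rw [norm_vec, Complex.norm_real]; exact wK_bd K (t, x)⟩
    filter_upwards [h, ae_restrict_mem isOpen_Om.measurableSet] with x h1 h2
    rw [grad_phiK K t x (Om_subset h2)]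
    exact h1

end Pool.Agent.H681R3.MR
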