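import Pool.Agent.H681R3.MR.Sol

/-!
# The form, and the solution property
-/

open MeasureTheory Set Filter Topology
open scoped Real

namespace Pool.Agent.H681R3.MR

theorem norm_pair_le (a : H Om) (b : Hn Om) (c : ℝ) (ha : ‖a‖ ≤ c) (hb : ‖b‖ ≤ c) :
    ‖(WithLp.toLp 2 (a, b) : HxHn Om)‖ ≤ 2 * c := by
  have hc : 0 ≤ c := (norm_nonneg _).trans ha
  have h := WithLp.prod_norm_sq_eq_of_L2 (WithLp.toLp 2 (a, b) : HxHn Om)
  simp only [WithLp.toLp_fst, WithLp.toLp_snd] at h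
  have h1 := norm_nonneg a
  have h2 := norm_nonneg b
  nlinarith [norm_nonneg (WithLp.toLp 2 (a, b) : HxHn Om)]

theorem norm_eH_sub_le (a b : ℝ × ℝ → ℝ) (ha : Continuous a) (hb : ∀ t, ∃ C, ∀ x, |a (t, x)| ≤ C)
    (ha' : Continuous b) (hb' : ∀ t, ∃ C, ∀ x, |b (t, x)| ≤ C) (t c : ℝ) (hc : 0 ≤ c)
    (h : ∀ x, |a (t, x) - b (t, x)| ≤ c) : ‖eH a ha hb t - eH b ha' hb' t‖ ≤ cOm * c := by
  refine norm_emb_sub_le _ _ _ _ _ _ _ hc fun x => ?_
  rw [← Complex.ofReal_sub, Complex.norm_real, Real.norm_eq_abs]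
  exact h x

theorem norm_eV_sub_le (a b : ℝ × ℝ → ℝ) (ha : Continuous a) (hb : ∀ t, ∃ C, ∀ x, |a (t, x)| ≤ C)
    (ha' : Continuous b) (hb' : ∀ t, ∃ C, ∀ x, |b (t, x)| ≤ C) (t c : ℝ) (hc : 0 ≤ c)
    (h : ∀ x, |a (t, x) - b (t, x)| ≤ c) : ‖eV a ha hb t - eV b ha' hb' t‖ ≤ cOm * c := by
  unfold eV
  refine norm_emb_sub_le _ _ _ _ _ _ _ hc fun x => ?_
  have e3 : vec (fun x => ((a (t, x) : ℝ) : ℂ)) x - vec (fun x => ((b (t, x) : ℝ) : ℂ)) x =
      vec (fun x => ((a (t, x) - b (t, x) : ℝ) : ℂ)) x := by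
    ext i; simp [vec]
  rw [e3, norm_vec, Complex.norm_real, Real.norm_eq_abs]
  exact h x

theorem pair_mem (t : ℝ) : pairE t ∈ V Om ∅ := by
  unfold V
  rw [← SetLike.mem_coe, Submodule.topologicalClosure_coe, Metric.mem_closure_iff]
  intro ε hε
  obtain ⟨δ, hδ, hδε⟩ : ∃ δ > 0, 2 * (cOm * ((4 * |t| + 1) * δ)) < ε := by
    have h0 := cOm_nonneg
    refine ⟨ε / (4 * ((cOm + 1) * (4 * |t| + 1))), by positivity, ?_⟩
    have h1 : 0 < (cOm + 1) * (4 * |t| + 1) := by positivity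
    rw [show 2 * (cOm * ((4 * |t| + 1) * (ε / (4 * ((cOm + 1) * (4 * |t| + 1)))))) =
      (cOm / (cOm + 1)) * (ε / 2) by field_simp; ring]
    have h2 : cOm / (cOm + 1) ≤ 1 := by rw [div_le_one (by linarith)]; linarith
    nlinarith
  have h1 := Metric.tendstoUniformly_iff.1 sS_unif δ hδ
  have h2 := Metric.tendstoUniformly_iff.1 pS_unif δ hδ
  obtain ⟨K, hK1, hK2⟩ := (h1.and h2).exists
  refine ⟨pairK K t, Submodule.subset_span (pairK_mem K t), lt_of_le_of_lt ?_ hδε⟩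
  rw [dist_eq_norm]
  have e : pairE t - pairK K t = WithLp.toLp 2 (uE t - uKE K t, wE t - wKE K t) := rfl
  rw [e]
  have hs : ∀ x, |sS (t, x) - sK K (t, x)| ≤ δ := fun x => by
    have := (hK1 (t, x)).le; rwa [Real.dist_eq] at this
  have hp : ∀ x, |pS (t, x) - pK K (t, x)| ≤ δ := fun x => by
    have := (hK2 (t, x)).le; rwa [Real.dist_eq] at this
  refine norm_pair_le _ _ _ ?_ ?_
  · unfold uE uKE
    refine norm_eH_sub_le _ _ _ _ _ _ _ _ (by positivity) fun x => ?_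
    have e2 : uS (t, x) - uK K (t, x) = t * (Real.sin x ^ 2 * (sS (t, x) - sK K (t, x))) := by
      unfold uS uK; ring
    rw [e2]
    have := prod_bd (le_refl |t|) (abs_mul_le_of (sin_sq_le x) (hs x))
    nlinarith [abs_nonneg t, mul_nonneg (abs_nonneg t) hδ.le]
  · unfold wE wKE
    refine norm_eV_sub_le _ _ _ _ _ _ _ _ (by positivity) fun x => ?_
    have e2 : wS (t, x) - wK K (t, x) = t * (2 * Real.sin x * Real.cos x * (sS (t, x) - sK K (t, x)) +
        Real.sin x ^ 2 * (pS (t, x) - pK K (t, x))) := by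
      unfold wS wK; ring
    rw [e2]
    have h4 := sc_bd x (hs x)
    have h5 := abs_mul_le_of (sin_sq_le x) (hp x)
    have h6 := abs_add_le (2 * Real.sin x * Real.cos x * (sS (t, x) - sK K (t, x)))
        (Real.sin x ^ 2 * (pS (t, x) - pK K (t, x)))
    have := prod_bd (le_refl |t|) (show |2 * Real.sin x * Real.cos x * (sS (t, x) - sK K (t, x)) +
        Real.sin x ^ 2 * (pS (t, x) - pK K (t, x))| ≤ 3 * δ by linarith)
    nlinarith [abs_nonneg t, mul_nonneg (abs_nonneg t) hδ.le]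

/-- the solution as a function with values in `V` -/
noncomputable def uV (t : ℝ) : V Om ∅ := ⟨pairE t, pair_mem t⟩

theorem uV_cont : Continuous uV := pairE_cont.subtype_mk _

/-- a continuous function is in `L²(0,T)` -/
theorem memLp_of_cont {F : Type*} [NormedAddCommGroup F] (g : ℝ → F) (hg : Continuous g) (T : ℝ) :
    MemLp g 2 (volume.restrict (Ioo 0 T)) := by
  obtain ⟨C, hC⟩ := (isCompact_Icc (a := (0 : ℝ)) (b := T)).exists_bound_of_continuousOn hg.continuousOn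
  refine MemLp.of_bound hg.aestronglyMeasurable C ?_
  filter_upwards [ae_restrict_mem measurableSet_Ioo] with t ht
  exact hC t (Ioo_subset_Icc_self ht)

/-! ## The coefficient -/

/-- the coefficient function `A(t,x)`, a `1 × 1` matrix -/
noncomputable def Aco (t : ℝ) (x : E 1) : Matrix (Fin 1) (Fin 1) ℂ := fun _ _ => ((aS (t, x 0) : ℝ) : ℂ)

theorem Aco_elliptic (T : ℝ) : IsElliptic T Om Aco := by
  refine ⟨fun i j => ?_, 3 / 10, 9 / 2, by norm_num, by norm_num, fun t _ x _ ξ => ⟨?_, ?_⟩⟩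
  · have := aS_cont
    have h : Continuous (fun p : ℝ × E 1 => Aco p.1 p.2 i j) := by unfold Aco; fun_prop
    exact h.measurable
  · have h := aS_bd (t, x 0)
    rw [EuclideanSpace.norm_eq, EuclideanSpace.norm_eq]
    simp only [Finset.univ_unique, Fin.default_eq_zero, Fin.isValue, Finset.sum_singleton, Aco]
    rw [Real.sqrt_sq (norm_nonneg _), Real.sqrt_sq (norm_nonneg _), norm_mul, Complex.norm_real,
      Real.norm_eq_abs, abs_of_nonneg (by linarith)]
    exact mul_le_mul_of_nonneg_right h.2 (norm_nonneg _)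
  · have h := aS_bd (t, x 0)
    rw [EuclideanSpace.norm_eq]
    simp only [Finset.univ_unique, Fin.default_eq_zero, Fin.isValue, Finset.sum_singleton, Aco]
    rw [Real.sqrt_sq (norm_nonneg _), mul_assoc, Complex.mul_conj, ← Complex.ofReal_mul,
      Complex.ofReal_re, Complex.normSq_eq_norm_sq]
    exact mul_le_mul_of_nonneg_right h.1 (by positivity)

theorem memLp_mulC (c : ℝ → ℝ) (hc : Continuous c) (C : ℝ) (hb : ∀ x, |c x| ≤ C) (u : Hn Om) :
    MemLp (fun x : E 1 => ((c (x 0) : ℝ) : ℂ) • u x) 2 (volume.restrict Om) := by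
  refine MemLp.of_le_mul (Lp.memLp u) (c := C) ?_ (Eventually.of_forall fun x => ?_)
  · have h : Continuous (fun x : E 1 => ((c (x 0) : ℝ) : ℂ)) := by fun_prop
    exact h.aestronglyMeasurable.smul (Lp.aestronglyMeasurable u)
  · rw [norm_smul, Complex.norm_real, Real.norm_eq_abs]
    exact mul_le_mul_of_nonneg_right (hb _) (norm_nonneg _)

/-- multiplication of a vector field by a function -/
noncomputable def mulC (c : ℝ → ℝ) (hc : Continuous c) (C : ℝ) (hb : ∀ x, |c x| ≤ C) (u : Hn Om) : Hn Om :=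
  (memLp_mulC c hc C hb u).toLp _

theorem inner_mulC (c : ℝ → ℝ) (hc : Continuous c) (C : ℝ) (hb : ∀ x, |c x| ≤ C) (u v : Hn Om) :
    inner ℂ v (mulC c hc C hb u) =
      ∫ x in Om, ((c (x 0) : ℝ) : ℂ) * u x 0 * (starRingEnd ℂ) (v x 0) := by
  rw [L2.inner_def]
  refine integral_congr_ae ?_
  filter_upwards [(memLp_mulC c hc C hb u).coeFn_toLp] with x h1
  unfold mulC
  rw [h1, PiLp.inner_apply]
  simp

theorem aS_abs (p : ℝ × ℝ) : |aS p| ≤ 9 / 2 := by
  have := aS_bd p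
  rw [abs_of_nonneg (by linarith)]; exact this.2

noncomputable def mulA (t : ℝ) (u : Hn Om) : Hn Om :=
  mulC (fun x => aS (t, x)) (by have := aS_cont; fun_prop) (9 / 2) (fun x => aS_abs (t, x)) u

theorem form_eq (t : ℝ) (u v : V Om ∅) : form Aco t u v = inner ℂ v.1.snd (mulA t u.1.snd) := by
  unfold mulA
  rw [inner_mulC]
  unfold form
  simp [Aco]

theorem norm_snd_le {Ω D : Set (E 1)} (u : V Ω D) : ‖u.1.snd‖ ≤ ‖u‖ := by
  have h := WithLp.prod_norm_sq_eq_of_L2 u.1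
  have h1 : ‖u‖ = ‖u.1‖ := rfl
  rw [h1]
  exact le_of_sq_le_sq (by nlinarith [sq_nonneg ‖u.1.fst‖]) (norm_nonneg _)

theorem mulA_sub (t s : ℝ) (u : Hn Om) : ‖mulA t u - mulA s u‖ ≤ 600 * √|t - s| * ‖u‖ := by
  refine Lp.norm_le_mul_norm_of_ae_le_mul ?_
  have hc := aS_cont
  have h1 := (memLp_mulC (fun x => aS (t, x)) (by fun_prop) (9 / 2) (fun x => aS_abs (t, x)) u).coeFn_toLp
  have h2 := (memLp_mulC (fun x => aS (s, x)) (by fun_prop) (9 / 2) (fun x => aS_abs (s, x)) u).coeFn_toLp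
  filter_upwards [h1, h2, Lp.coeFn_sub (mulA t u) (mulA s u)] with x e1 e2 e3
  rw [e3, Pi.sub_apply]
  unfold mulA mulC
  rw [e1, e2, ← sub_smul, norm_smul, ← Complex.ofReal_sub, Complex.norm_real, Real.norm_eq_abs]
  exact mul_le_mul_of_nonneg_right (aS_holder t s (x 0)) (norm_nonneg _)

theorem Aco_holder (T : ℝ) : HalfHolder T Om ∅ Aco := by
  refine ⟨600, fun t _ s _ u v => ?_⟩
  rw [form_eq, form_eq, ← inner_sub_right]
  refine (norm_inner_le_norm _ _).trans ?_
  rw [← Real.sqrt_eq_rpow]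
  have h1 := mulA_sub t s u.1.snd
  have h2 := norm_snd_le u
  have h3 := norm_snd_le v
  have h4 : ‖mulA t u.1.snd - mulA s u.1.snd‖ ≤ 600 * √|t - s| * ‖u‖ :=
    h1.trans (mul_le_mul_of_nonneg_left h2 (by positivity))
  calc ‖v.1.snd‖ * ‖mulA t u.1.snd - mulA s u.1.snd‖ ≤ ‖v‖ * (600 * √|t - s| * ‖u‖) :=
        mul_le_mul h3 h4 (norm_nonneg _) (norm_nonneg _)
    _ = 600 * √|t - s| * ‖u‖ * ‖v‖ := by ring

/-! ## The weak formulation -/

theorem mulA_wE (s : ℝ) : mulA s (wE s) = hE s := by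
  have hc := aS_cont
  have h1 := (memLp_mulC (fun x => aS (s, x)) (by fun_prop) (9 / 2) (fun x => aS_abs (s, x)) (wE s)).coeFn_toLp
  have h2 := coe_emb (vec fun x => ((wS (s, x) : ℝ) : ℂ)) (vec_cont _ (by have := wS_cont; fun_prop))
      ⟨4 * |s|, fun x => by rw [norm_vec, Complex.norm_real]; exact wS_bd (s, x)⟩
  have h3 := coe_emb (vec fun x => ((hS (s, x) : ℝ) : ℂ)) (vec_cont _ (by have := hS_cont; fun_prop))
      ⟨2 * |s|, fun x => by rw [norm_vec, Complex.norm_real]; exact hS_bd (s, x)⟩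
  refine Lp.ext ?_
  filter_upwards [h1, h2, h3] with x e1 e2 e3
  have e4 : (mulA s (wE s)) x = ((aS (s, x 0) : ℝ) : ℂ) • (wE s) x := e1
  have e5 : (wE s) x = vec (fun y => ((wS (s, y) : ℝ) : ℂ)) (x 0) := e2
  have e6 : (hE s) x = vec (fun y => ((hS (s, y) : ℝ) : ℂ)) (x 0) := e3
  rw [e4, e5, e6]
  ext i
  simp only [vec, PiLp.smul_apply, smul_eq_mul]
  rw [← Complex.ofReal_mul, aS_mul_wS]

/-- the point of `ℝ¹` with coordinate `y` -/
noncomputable def pt (y : ℝ) : E 1 := EuclideanSpace.single 0 y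

theorem pt_eq (x : E 1) : pt (x 0) = x := by
  ext i; fin_cases i; simp [pt]

theorem hasDerivAt_pt (y : ℝ) : HasDerivAt pt (EuclideanSpace.single 0 1) y := by
  have e : pt = fun y => y • (EuclideanSpace.single 0 1 : E 1) := by
    ext y i; fin_cases i; simp [pt]
  rw [e]
  simpa using (hasDerivAt_id y).smul_const (EuclideanSpace.single 0 1 : E 1)

theorem test_ident (t : ℝ) (v : HxHn Om) (hv : v ∈ testPairs Om ∅) :
    inner ℂ v.fst (uE t) = ∫ s in (0 : ℝ)..t, (inner ℂ v.fst (fE s) - inner ℂ v.snd (hE s)) := by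
  obtain ⟨φ, hφ, hφc, -, h1, h2⟩ := hv
  set ψ : ℝ → ℂ := fun y => (starRingEnd ℂ) (φ (pt y)) with hψdef
  set ψ' : ℝ → ℂ := fun y => (starRingEnd ℂ) (fderiv ℝ φ (pt y) (EuclideanSpace.single 0 1)) with hψ'def
  have hder : ∀ y, HasDerivAt ψ (ψ' y) y := by
    intro y
    have hd : HasFDerivAt φ (fderiv ℝ φ (pt y)) (pt y) :=
      ((hφ.differentiable (by simp)) (pt y)).hasFDerivAt
    have h3 : HasDerivAt (fun y => φ (pt y)) (fderiv ℝ φ (pt y) (EuclideanSpace.single 0 1)) y :=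
      hd.comp_hasDerivAt y (hasDerivAt_pt y)
    have h4 := (Complex.conjCLE.toContinuousLinearMap.hasFDerivAt).comp_hasDerivAt y h3
    exact h4
  have hcont : Continuous ψ' := by
    have h3 : Continuous (fderiv ℝ φ) := hφ.continuous_fderiv (by simp)
    have h4 : Continuous pt := continuous_iff_continuousAt.2 fun y => (hasDerivAt_pt y).continuousAt
    have h5 : Continuous fun y => fderiv ℝ φ (pt y) (EuclideanSpace.single 0 1) :=
      (h3.comp h4).clm_apply continuous_const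
    exact Complex.continuous_conj.comp h5
  have key : ∀ (a : ℝ × ℝ → ℝ) (ha : Continuous a) (hb : ∀ t, ∃ C, ∀ x, |a (t, x)| ≤ C) (s : ℝ),
      inner ℂ v.fst (eH a ha hb s) = ∫ y in (0 : ℝ)..π, (a (s, y) : ℂ) * ψ y := by
    intro a ha hb s
    unfold eH
    rw [inner_emb, ← integral_Om (fun y => (a (s, y) : ℂ) * ψ y)]
    refine integral_congr_ae ?_
    filter_upwards [h1] with x hx
    simp only [hψdef]
    rw [pt_eq, hx]
  have key2 : ∀ (a : ℝ × ℝ → ℝ) (ha : Continuous a) (hb : ∀ t, ∃ C, ∀ x, |a (t, x)| ≤ C) (s : ℝ),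
      inner ℂ v.snd (eV a ha hb s) = ∫ y in (0 : ℝ)..π, (a (s, y) : ℂ) * ψ' y := by
    intro a ha hb s
    unfold eV
    rw [inner_emb_vec, ← integral_Om (fun y => (a (s, y) : ℂ) * ψ' y)]
    refine integral_congr_ae ?_
    filter_upwards [h2] with x hx
    simp only [hψ'def]
    rw [pt_eq, hx]
    simp [grad]
  unfold uE fE hE
  rw [key]
  simp_rw [key, key2]
  exact ident_S t ψ ψ' hder hcont

theorem ident (t : ℝ) (v : V Om ∅) :
    inner ℂ v.1.fst (uE t) = ∫ s in (0 : ℝ)..t, (inner ℂ v.1.fst (fE s) - inner ℂ v.1.snd (hE s)) := by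
  have hrhs : ∀ v : HxHn Om, ∫ s in (0 : ℝ)..t, (inner ℂ v.fst (fE s) - inner ℂ v.snd (hE s)) =
      inner ℂ v.fst (∫ s in (0 : ℝ)..t, fE s) - inner ℂ v.snd (∫ s in (0 : ℝ)..t, hE s) := by
    intro v
    have hf := fE_cont
    have hh := hE_cont
    rw [intervalIntegral.integral_sub]
    · congr 1
      · exact ((innerSL ℂ v.fst)).intervalIntegral_comp_comm (hf.intervalIntegrable _ _)
      · exact ((innerSL ℂ v.snd)).intervalIntegral_comp_comm (hh.intervalIntegrable _ _)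
    · exact Continuous.intervalIntegrable (by fun_prop) _ _
    · exact Continuous.intervalIntegrable (by fun_prop) _ _
  set Z : HxHn Om := WithLp.toLp 2 (uE t - ∫ s in (0 : ℝ)..t, fE s, ∫ s in (0 : ℝ)..t, hE s) with hZ
  have hinner : ∀ v : HxHn Om, inner ℂ v Z = inner ℂ v.fst (uE t) -
      ∫ s in (0 : ℝ)..t, (inner ℂ v.fst (fE s) - inner ℂ v.snd (hE s)) := by
    intro v
    rw [hrhs, WithLp.prod_inner_apply, hZ]
    simp only [inner_sub_right]
    change inner ℂ v.fst (uE t) - inner ℂ v.fst _ + inner ℂ v.snd _ = _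
    ring
  have hle : V Om ∅ ≤ (Submodule.span ℂ {Z})ᗮ := by
    unfold V
    refine Submodule.topologicalClosure_minimal _ ?_ (Submodule.isClosed_orthogonal _)
    rw [Submodule.span_le]
    intro v hv
    rw [SetLike.mem_coe, Submodule.mem_orthogonal_singleton_iff_inner_left, hinner,
      test_ident t v hv, sub_self]
  have h := hle v.2
  rw [Submodule.mem_orthogonal_singleton_iff_inner_left, hinner] at h
  exact sub_eq_zero.1 h

theorem uV_solution (T : ℝ) : IsSolution T Aco fE uV := by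
  have hform : ∀ s (v : V Om ∅), form Aco s (uV s) v = inner ℂ v.1.snd (hE s) := by
    intro s v
    rw [form_eq]
    change inner ℂ v.1.snd (mulA s (wE s)) = _
    rw [mulA_wE]
  refine ⟨memLp_of_cont uV uV_cont T, fun v => ⟨?_, ?_⟩⟩
  · have hf := fE_cont
    have hh := hE_cont
    simp_rw [hform]
    have hc : Continuous fun s => inner ℂ v.1.fst (fE s) - inner ℂ v.1.snd (hE s) := by fun_prop
    exact (hc.continuousOn.integrableOn_Icc).mono_set Ioo_subset_Icc_self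
  · refine Eventually.of_forall fun t => ?_
    simp_rw [hform]
    exact ident t v

end Pool.Agent.H681R3.MR
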